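import Pool.Agent.Lib_helper74.KY.Defs
import Pool.Agent.Lib_helper74.KY.ClassesT
set_option autoImplicit false
set_option linter.unusedSectionVars false

namespace Pool.Agent.CKP

open Pool.Agent.CK

variable {O : Lang}
variable {α β γ δ : Type} [ToD α] [ToD β] [ToD γ] [ToD δ]

theorem items_code (l : List (List Bool)) : items (l.flatMap CK.code) = l := by
  have key : ∀ (x : List Bool) (r : List Bool), items (CK.code x ++ r) = x :: items r := by
    intro x r
    unfold CK.code
    induction x with
    | nil => simp [items]
    | cons b t ih =>
      have h1 : (List.flatMap (fun b => [true, b]) (b :: t) ++ [false]) ++ r =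
          true :: b :: ((List.flatMap (fun b => [true, b]) t ++ [false]) ++ r) := by
        simp
      rw [h1, items, ih]
  induction l with
  | nil => simp [items]
  | cons x t ih =>
    rw [List.flatMap_cons, key, ih]

/-- structural recursion with a polynomial bound -/
theorem r3_listRec {l : γ → List α} {n : γ → β} {c : γ → α → List α → β → β}
    (hl : PTime O l) (hn : PTime O n)
    (hc : PTime O (fun p : γ × α × List α × β => c p.1 p.2.1 p.2.2.1 p.2.2.2))
    (R : Polynomial ℕ)
    (hR : ∀ x l', l' <:+ l x →
      sz (List.rec (motive := fun _ => β) (n x) (fun a t r => c x a t r) l' : β) ≤ R.eval (sz x)) :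
    PTime O (fun x => List.rec (motive := fun _ => β) (n x) (fun a t r => c x a t r) (l x)) := by
  obtain ⟨Pl, hPl⟩ := hl.size_le
  have hs : PTime O (fun p : γ × (List α × β) × α =>
      ((p.2.2 :: p.2.1.1, c p.1 p.2.2 p.2.1.1 p.2.1.2) : List α × β)) := by
    have h1 : PTime O (fun p : γ × (List α × β) × α => p.1) := PTime.id.fst
    have h2 : PTime O (fun p : γ × (List α × β) × α => p.2.2) := PTime.id.snd.snd
    have h3 : PTime O (fun p : γ × (List α × β) × α => p.2.1.1) := PTime.id.snd.fst.fst
    have h4 : PTime O (fun p : γ × (List α × β) × α => p.2.1.2) := PTime.id.snd.fst.snd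
    exact (h2.cons h3).pair (hc.comp (h1.pair (h2.pair (h3.pair h4))))
  have h := PTime.foldl (l := fun x => (l x).reverse) (i := fun x => (([] : List α), n x))
    (s := fun x (q : List α × β) a => (a :: q.1, c x a q.1 q.2)) hl.reverse
    ((PTime.const ([] : List α)).pair hn) hs (Pl + R + 1) (by
      intro x l' hl'
      have h1 : l'.reverse <:+ l x := by
        rw [← List.reverse_prefix, List.reverse_reverse]
        exact hl'
      have h2 : l'.foldl (fun (q : List α × β) a => (a :: q.1, c x a q.1 q.2)) ([], n x) =
          (l'.reverse, List.rec (motive := fun _ => β) (n x) (fun a t r => c x a t r)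
            l'.reverse) := by
        rw [← listRec_fold (n x) (c x) l'.reverse, List.foldr_reverse]
      rw [h2, sz_pair]
      have h3 := hR x l'.reverse h1
      have h4 := sz_le_of_suffix h1
      have h5 := hPl x
      simp only [Polynomial.eval_add, eval_one']
      omega)
  refine (h.snd).of_eq fun x => ?_
  rw [List.foldl_reverse, listRec_fold (n x) (c x) (l x)]

theorem r3_items_sz : ∀ l : List Bool, sz (items l) ≤ 4 * l.length + 1
  | [] => by simp [items]
  | false :: l => by
    have h := r3_items_sz l
    rw [items, sz_cons, sz_nil, List.length_cons]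
    omega
  | [true] => by simp [items]
  | true :: b :: l => by
    have h := r3_items_sz l
    rw [items]
    have hb : sz b ≤ 3 := by cases b <;> simp
    cases hi : items l with
    | nil => simp
    | cons x t =>
      rw [hi] at h
      simp only [sz_cons, List.length_cons] at h ⊢
      omega

/-- one step of the recursion which computes `(items l, items l.tail)` -/
def r3_step (a : Bool) (t : List Bool) (r : List (List Bool) × List (List Bool)) :
    List (List Bool) × List (List Bool) :=
  (if a = true then lcase t [] (fun b _ => lcase r.2 [] (fun x s => (b :: x) :: s)) else [] :: r.1,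
    r.1)

theorem r3_step_rec (l : List Bool) :
    (List.rec (motive := fun _ => List (List Bool) × List (List Bool)) ([], [])
      (fun a t r => r3_step a t r) l : List (List Bool) × List (List Bool)) =
      (items l, items l.tail) := by
  induction l with
  | nil => simp [items]
  | cons a t ih =>
    show r3_step a t _ = _
    rw [ih]
    cases a with
    | false => simp [r3_step, items]
    | true =>
      cases t with
      | nil => simp [r3_step, items]
      | cons b t' =>
        simp only [r3_step, if_true, lcase_cons, List.tail_cons]
        rw [items]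
        cases items t' <;> rfl

theorem r3_step_ptime : PTime O (fun p : γ × Bool × List Bool × (List (List Bool) × List (List Bool))
    => r3_step p.2.1 p.2.2.1 p.2.2.2) := by
  unfold r3_step
  have ha : PTime O (fun p : γ × Bool × List Bool × (List (List Bool) × List (List Bool)) =>
      p.2.1) := PTime.id.snd.fst
  have ht : PTime O (fun p : γ × Bool × List Bool × (List (List Bool) × List (List Bool)) =>
      p.2.2.1) := PTime.id.snd.snd.fst
  have hr1 : PTime O (fun p : γ × Bool × List Bool × (List (List Bool) × List (List Bool)) =>
      p.2.2.2.1) := PTime.id.snd.snd.snd.fst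
  have hin : PTime O (fun q : ((γ × Bool × List Bool × (List (List Bool) × List (List Bool))) ×
      Bool × List Bool) =>
      lcase q.1.2.2.2.2 ([] : List (List Bool)) (fun x s => (q.2.1 :: x) :: s)) := by
    refine PTime.lcase (c := fun (q : ((γ × Bool × List Bool ×
      (List (List Bool) × List (List Bool))) × Bool × List Bool)) x s => (q.2.1 :: x) :: s)
      PTime.id.fst.snd.snd.snd.snd (PTime.const _) ?_
    exact (PTime.id.fst.snd.fst.cons PTime.id.snd.fst).cons PTime.id.snd.snd
  have hcase := PTime.lcase (n := fun _ => ([] : List (List Bool)))
    (c := fun (p : γ × Bool × List Bool × (List (List Bool) × List (List Bool)))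
      (b : Bool) (_ : List Bool) =>
      lcase p.2.2.2.2 ([] : List (List Bool)) (fun x s => (b :: x) :: s))
    ht (PTime.const _) hin
  exact (PTime.ite ha hcase ((PTime.const ([] : List Bool)).cons hr1)).pair hr1

theorem PTime.items {x : γ → List Bool} (hx : PTime O x) :
    PTime O (fun a => CKP.items (x a)) := by
  have h1 : PTime O (fun l : List Bool => CKP.items l) := by
    have h := r3_listRec (O := O) (γ := List Bool) (l := fun l : List Bool => l)
      (n := fun _ => (([], []) : List (List Bool) × List (List Bool)))
      (c := fun _ a t r => r3_step a t r) PTime.id (PTime.const _) r3_step_ptime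
      (Polynomial.C 8 * Polynomial.X + Polynomial.C 3) (by
        intro x l' hl'
        rw [r3_step_rec, sz_pair]
        have h1 := r3_items_sz l'
        have h2 := r3_items_sz l'.tail
        have h3 : l'.tail.length ≤ l'.length := by simp
        have h4 : l'.length ≤ sz x := (length_le_sz l').trans (sz_le_of_suffix hl')
        simp only [Polynomial.eval_add, Polynomial.eval_mul, Polynomial.eval_C,
          Polynomial.eval_X]
        omega)
    refine h.fst.of_eq fun l => ?_
    rw [r3_step_rec]
  exact h1.comp hx

theorem PTime.code1 {x : γ → List Bool} (hx : PTime O x) :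
    PTime O (fun a => CK.code (x a)) := by
  unfold CK.code
  have h := PTime.flatMap (l := x) (f := fun (_ : γ) (b : Bool) => [true, b]) hx
    ((PTime.const true).cons (PTime.id.snd.cons (PTime.const ([] : List Bool))))
  exact h.append (PTime.const _)

theorem tt_data {A B : Lang} (h : TTReducible O A B) :
    ∃ (Q : List Bool → List (List Bool)) (V : List Bool → List Bool → Bool), PTime O Q ∧
      PTime O (fun p : List Bool × List Bool => V p.1 p.2) ∧
      ∀ z, A z = V z ((Q z).map B) := by
  obtain ⟨q, V, hq, hV, h⟩ := h
  refine ⟨fun z => items (q z), fun z w => V (CK.code z ++ w), (ptime_of_inFP hq).items, ?_, ?_⟩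
  · exact (ptime_of_inP hV).comp ((PTime.code1 PTime.id.fst).append PTime.id.snd)
  · intro z
    obtain ⟨l, h1, h2⟩ := h z
    show A z = V (CK.code z ++ (items (q z)).map B)
    rw [h2, h1, items_code]

theorem tt_of_m {A B : Lang} (h : ManyOneReducible O A B) : TTReducible O A B := by
  obtain ⟨f, hf, h⟩ := h
  refine ⟨fun x => CK.code (f x), fun y => y.reverse.headD false,
    inFP_of (PTime.code1 (ptime_of_inFP hf)),
    inP_of (PTime.headD PTime.id.reverse (PTime.const _)), fun x => ⟨[f x], by simp, ?_⟩⟩
  rw [h x]
  simp

theorem tt_of_btt {A B : Lang} (h : BTTReducible O A B) : TTReducible O A B := by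
  obtain ⟨q, V, b, hq, hV, h⟩ := h
  refine ⟨q, V, hq, hV, fun x => ?_⟩
  obtain ⟨l, -, h1, h2⟩ := h x
  exact ⟨l, h1, h2⟩

end Pool.Agent.CKP
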