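import Pool.Agent.Lib_helper74.KY.Defs
/-!
# Keys, block R2: programs with two inputs (helper56)
-/

set_option autoImplicit false
set_option linter.unusedSectionVars false

namespace Pool.Agent.CKP

open Pool.Agent.CK

variable {O : Lang}
variable {α β γ δ : Type} [ToD α] [ToD β] [ToD γ] [ToD δ]

/-- codes the two inputs as a pair on stack `0` -/
def r2_prep : Cmd :=
  .seq (mv 0 2) (.seq (mv 1 3) (.seq (.push 0 false) (.seq (conv 3) (.seq (.push 0 false)
    (.seq (conv 2) (.push 0 true))))))

theorem r2_prep_ex (x y : List Bool) :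
    Ex O r2_prep (init x y) (S4 (fun _ => []) (toD (x, y)).enc [] [] [])
      (16 * (x.length + y.length) + 13) := by
  have hi : init x y = S4 (fun _ => []) x y [] [] := by
    funext r
    match r with
    | 0 => rfl
    | 1 => rfl
    | 2 => rfl
    | 3 => rfl
    | n + 4 => rfl
  have e1 : Ex O (mv 0 2) (init x y) (S4 (fun _ => []) [] y x.reverse []) (5 * x.length + 1) := by
    have := mv_ex (O := O) (r := 0) (s := 2) (by decide) x (init x y) rfl
    rw [hi, S4_u2, S4_u0] at this
    rw [hi]
    simpa [S4] using this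
  have e2 : Ex O (mv 1 3) (S4 (fun _ => []) [] y x.reverse [])
      (S4 (fun _ => []) [] [] x.reverse y.reverse) (5 * y.length + 1) := by
    have := mv_ex (O := O) (r := 1) (s := 3) (by decide) y
      (S4 (fun _ => []) [] y x.reverse []) rfl
    rw [S4_u3, S4_u1] at this
    simpa [S4] using this
  have e3 : Ex O (.push 0 false) (S4 (fun _ => []) [] [] x.reverse y.reverse)
      (S4 (fun _ => []) [false] [] x.reverse y.reverse) 1 := by
    have := Ex.push (O := O) 0 false (S4 (fun _ => []) [] [] x.reverse y.reverse)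
    rw [S4_u0] at this
    exact this
  have e4 : Ex O (conv 3) (S4 (fun _ => []) [false] [] x.reverse y.reverse)
      (S4 (fun _ => []) (toD y).enc [] x.reverse []) (11 * y.length + 1) := by
    have := conv_ex (O := O) (r := 3) (by decide) y.reverse [] []
      (S4 (fun _ => []) [false] [] x.reverse y.reverse) rfl rfl
    rw [S4_u3, S4_u0] at this
    simpa using this
  have e5 : Ex O (.push 0 false) (S4 (fun _ => []) (toD y).enc [] x.reverse [])
      (S4 (fun _ => []) (false :: (toD y).enc) [] x.reverse []) 1 := by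
    have := Ex.push (O := O) 0 false (S4 (fun _ => []) (toD y).enc [] x.reverse [])
    rw [S4_u0] at this
    exact this
  have e6 : Ex O (conv 2) (S4 (fun _ => []) (false :: (toD y).enc) [] x.reverse [])
      (S4 (fun _ => []) ((toD x).enc ++ (toD y).enc) [] [] []) (11 * x.length + 1) := by
    have := conv_ex (O := O) (r := 2) (by decide) x.reverse [] (toD y).enc
      (S4 (fun _ => []) (false :: (toD y).enc) [] x.reverse []) rfl rfl
    rw [S4_u2, S4_u0, List.reverse_reverse, List.append_nil] at this
    refine this.mono ?_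
    rw [List.length_reverse]
  have e7 : Ex O (.push 0 true) (S4 (fun _ => []) ((toD x).enc ++ (toD y).enc) [] [] [])
      (S4 (fun _ => []) (toD (x, y)).enc [] [] []) 1 := by
    have := Ex.push (O := O) 0 true (S4 (fun _ => []) ((toD x).enc ++ (toD y).enc) [] [] [])
    rw [S4_u0] at this
    exact this
  exact (e1.seq (e2.seq (e3.seq (e4.seq (e5.seq (e6.seq e7)))))).mono (by omega)

theorem r2_size (x y : List Bool) : (toD (x, y)).size ≤ 4 * (x.length + y.length) + 3 := by
  have g3 : (toD (x, y)).size = (toD x).size + (toD y).size + 1 := rfl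
  have g4 := size_bits x
  have g5 := size_bits y
  omega

theorem r2_nil (l : List Bool) (r : ℕ) (hr : 1 ≤ r) : S4 (fun _ => []) l [] [] [] r = [] := by
  match r, hr with
  | 1, _ => rfl
  | 2, _ => rfl
  | 3, _ => rfl
  | n + 4, _ => rfl

theorem run2_dec {V : List Bool → List Bool → Bool}
    (hV : PTime O (fun p : List Bool × List Bool => V p.1 p.2)) :
    ∃ (c : Cmd) (k : ℕ), ∀ x y : List Bool,
      Halts O c x y ((x.length + y.length + 2) ^ k) ∧
      (Accepts O c x y ((x.length + y.length + 2) ^ k) ↔ V x y = true) := by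
  obtain ⟨F, ⟨p, m, P, hp, hm, h⟩, hF⟩ := hV
  obtain ⟨k, hk⟩ := exists_pow (16 * Polynomial.X + 20 + P.comp (4 * Polynomial.X + 3))
  refine ⟨.seq r2_prep p, k, fun x y => ?_⟩
  have e1 := r2_prep_ex (O := O) x y
  have e2 : Ex O p (S4 (fun _ => []) (toD (x, y)).enc [] [] [])
      (Function.update (S4 (fun _ => []) (toD (x, y)).enc [] [] []) 0 (F (toD (x, y))).enc)
      (P.eval (toD (x, y)).size) :=
    h (toD (x, y)) _ ⟨(x, y), rfl⟩ rfl (fun r hr _ => r2_nil _ r hr)
  obtain ⟨t, ht, he⟩ := e1.seq e2
  have hT : t ≤ (x.length + y.length + 2) ^ k := by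
    refine ht.trans (le_trans ?_ (hk (x.length + y.length)))
    have h1 := poly_mono P (r2_size x y)
    simp only [Polynomial.eval_comp, Polynomial.eval_add, Polynomial.eval_mul,
      Polynomial.eval_ofNat, Polynomial.eval_X]
    omega
  have hrun := he.run hT
  unfold Halts Accepts
  rw [hrun]
  refine ⟨rfl, ?_⟩
  simp only [true_and, Function.update_self]
  have hF' : F (toD (x, y)) = toD (V x y) := hF (x, y)
  rw [hF']
  cases V x y <;> simp [ToD.toD, D.enc]

theorem run2_fun {F : List Bool → List Bool → List Bool}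
    (hF : PTime O (fun p : List Bool × List Bool => F p.1 p.2)) :
    ∃ (c : Cmd) (k : ℕ), ∀ x y : List Bool,
      Halts O c x y ((x.length + y.length + 2) ^ k) ∧
      (run O c x y ((x.length + y.length + 2) ^ k)).2 0 = F x y := by
  obtain ⟨Q, hQ⟩ := hF.size_le
  obtain ⟨G, ⟨p, m, P, hp, hm, h⟩, hG⟩ := hF
  obtain ⟨k, hk⟩ := exists_pow (16 * Polynomial.X + 40 + P.comp (4 * Polynomial.X + 3) +
    17 * Q.comp (4 * Polynomial.X + 3))
  refine ⟨.seq r2_prep (.seq p unDP), k, fun x y => ?_⟩
  have e1 := r2_prep_ex (O := O) x y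
  have e2 : Ex O p (S4 (fun _ => []) (toD (x, y)).enc [] [] [])
      (S4 (fun _ => []) (toD (F x y)).enc [] [] []) (P.eval (toD (x, y)).size) := by
    have := h (toD (x, y)) (S4 (fun _ => []) (toD (x, y)).enc [] [] []) ⟨(x, y), rfl⟩ rfl
      (fun r hr _ => r2_nil _ r hr)
    rw [S4_u0, hG] at this
    exact this
  have e3 := unDP_ex (O := O) (F x y) (S4 (fun _ => []) (toD (F x y)).enc [] [] []) rfl rfl
  obtain ⟨t, ht, he⟩ := e1.seq (e2.seq e3)
  have hT : t ≤ (x.length + y.length + 2) ^ k := by
    refine ht.trans (le_trans ?_ (hk (x.length + y.length)))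
    have h1 := poly_mono P (r2_size x y)
    have h2 : sz (F x y) ≤ Q.eval (toD (x, y)).size := hQ (x, y)
    have h3 := poly_mono Q (r2_size x y)
    have h4 : (F x y).length ≤ sz (F x y) := length_le_sz _
    simp only [Polynomial.eval_comp, Polynomial.eval_add, Polynomial.eval_mul,
      Polynomial.eval_ofNat, Polynomial.eval_X]
    omega
  have hrun := he.run hT
  unfold Halts
  rw [hrun]
  exact ⟨rfl, rfl⟩


end Pool.Agent.CKP
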