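import Pool.Agent.Lib_helper74.KY.Defs
/-!
# Keys, block G2: roots of polynomials (helper56)
-/

set_option autoImplicit false
set_option linter.unusedSectionVars false

namespace Pool.Agent.CKP

open Pool.Agent.CK

variable {O : Lang}
variable {α β γ δ : Type} [ToD α] [ToD β] [ToD γ] [ToD δ]

/-- `rt r` is monotone. -/
theorem rt_mono (r : ℕ) : Monotone (rt r) := by
  intro m n h
  unfold rt
  have h1 : ((List.range (m + 1)).filter fun j => decide (j ^ r ≤ m)).Sublist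
      ((List.range (n + 1)).filter fun j => decide (j ^ r ≤ m)) :=
    List.Sublist.filter _ (List.range_sublist.mpr (by omega))
  have h2 : ((List.range (n + 1)).filter fun j => decide (j ^ r ≤ m)).Sublist
      ((List.range (n + 1)).filter fun j => decide (j ^ r ≤ n)) := by
    apply List.monotone_filter_right
    intro j hj
    simp only [decide_eq_true_eq] at hj ⊢
    omega
  exact (h1.trans h2).length_le

/-- `(fun m => rt r (Q.eval m))` is computable in unary. -/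
theorem rt_poly (r : ℕ) (Q : Polynomial ℕ) : UPoly O (fun m => rt r (Q.eval m)) := by
  unfold UPoly
  refine (PTime.comp (g := fun u : List Unit => List.replicate (rt r u.length) ())
    (rt_upoly r) (UPoly.poly Q)).of_eq fun u => ?_
  rw [List.length_replicate]

/-- The `r`-th root of a polynomial grows slowly. -/
theorem rt_growth (Q : Polynomial ℕ) {ε : ℝ} (hε : 0 < ε) :
    ∃ r : ℕ, 1 ≤ r ∧ ∃ C : ℕ, ∀ m : ℕ, (rt r (Q.eval m) : ℝ) ≤ C * (m : ℝ) ^ ε + C := by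
  obtain ⟨k, hk⟩ := exists_pow Q
  refine ⟨⌈(k : ℝ) / ε⌉₊ + 1, by omega, ⌈(3 : ℝ) ^ ε + (2 : ℝ) ^ ε⌉₊ + 1, ?_⟩
  intro m
  set r : ℕ := ⌈(k : ℝ) / ε⌉₊ + 1 with hr
  have hr0 : (0 : ℝ) < r := by
    have : 0 < r := by omega
    exact_mod_cast this
  have hkr : (k : ℝ) * (1 / (r : ℝ)) ≤ ε := by
    have h1 : (k : ℝ) / ε ≤ r := by
      have := Nat.le_ceil ((k : ℝ) / ε)
      have h2 : ((⌈(k : ℝ) / ε⌉₊ : ℕ) : ℝ) ≤ r := by
        rw [hr]; push_cast; linarith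
      linarith
    rw [div_le_iff₀ hε] at h1
    rw [mul_one_div, div_le_iff₀ hr0]
    linarith
  have hC : (3 : ℝ) ^ ε + (2 : ℝ) ^ ε ≤ (⌈(3 : ℝ) ^ ε + (2 : ℝ) ^ ε⌉₊ : ℕ) := Nat.le_ceil _
  have h3p : (0 : ℝ) < (3 : ℝ) ^ ε := by positivity
  have h2p : (0 : ℝ) < (2 : ℝ) ^ ε := by positivity
  have hm2 : (0 : ℝ) ≤ (m : ℝ) + 2 := by positivity
  have h1 : (rt r (Q.eval m) : ℝ) ≤ ((m : ℝ) + 2) ^ ε + 1 := by
    have h2 := rt_le (r := r) (n := Q.eval m) (by omega)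
    have h3 : ((Q.eval m : ℕ) : ℝ) ^ (1 / (r : ℝ)) ≤ (((m : ℝ) + 2) ^ k) ^ (1 / (r : ℝ)) := by
      apply Real.rpow_le_rpow (by positivity) _ (by positivity)
      have := hk m
      exact_mod_cast this
    have h4 : (((m : ℝ) + 2) ^ k) ^ (1 / (r : ℝ)) = ((m : ℝ) + 2) ^ ((k : ℝ) * (1 / (r : ℝ))) := by
      rw [← Real.rpow_natCast, ← Real.rpow_mul hm2]
    have h5 : ((m : ℝ) + 2) ^ ((k : ℝ) * (1 / (r : ℝ))) ≤ ((m : ℝ) + 2) ^ ε :=
      Real.rpow_le_rpow_of_exponent_le (by linarith [Nat.cast_nonneg (α := ℝ) m]) hkr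
    rw [h4] at h3
    linarith
  have h6 : ((m : ℝ) + 2) ^ ε ≤ (3 : ℝ) ^ ε * (m : ℝ) ^ ε + (2 : ℝ) ^ ε := by
    rcases Nat.eq_zero_or_pos m with h | h
    · subst h
      have : (0 : ℝ) ≤ (3 : ℝ) ^ ε * ((0 : ℕ) : ℝ) ^ ε := by positivity
      simp only [Nat.cast_zero, zero_add] at this ⊢
      linarith
    · have hm1 : (1 : ℝ) ≤ m := by exact_mod_cast h
      have h7 : ((m : ℝ) + 2) ^ ε ≤ (3 * (m : ℝ)) ^ ε :=
        Real.rpow_le_rpow hm2 (by linarith) hε.le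
      rw [Real.mul_rpow (by norm_num) (by positivity)] at h7
      linarith
  have hmp : (0 : ℝ) ≤ (m : ℝ) ^ ε := by positivity
  push_cast
  have h8 : (3 : ℝ) ^ ε * (m : ℝ) ^ ε ≤
      ((⌈(3 : ℝ) ^ ε + (2 : ℝ) ^ ε⌉₊ : ℕ) + 1 : ℝ) * (m : ℝ) ^ ε :=
    mul_le_mul_of_nonneg_right (by linarith) hmp
  linarith


end Pool.Agent.CKP
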