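import Pool.Agent.Lib_helper57.YB.Correct

/-!
# Keys: verifiers whose thresholds are cuts of one real number (MP_675993_lc)
-/

set_option autoImplicit false
set_option linter.unusedSectionVars false

namespace Pool.Agent.CKP

open Pool.Agent.CK

/-- The statements `there is a witness v < u for m` are statements on one real number: the
implications between them follow the order of the numbers `u / 2 ^ ℓ m`. -/
def Cut (W : ℕ → ℕ → Bool) (ℓ : ℕ → ℕ) : Prop :=
  ∀ m m' u u' : ℕ, u * 2 ^ ℓ m' ≤ u' * 2 ^ ℓ m → tmW W m u = true → tmW W m' u' = true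

/-- the number of bits of the witnesses of the nested verifier -/
def lenN (ℓ : ℕ → ℕ) : ℕ → ℕ
  | 0 => ℓ 0 + 1
  | m + 1 => lenN ℓ m + (ℓ (m + 1) + 1)

/-- the nested verifier: a witness for `m` has, for all `j ≤ m`, a block of `ℓ j + 1` bits (the
block for `0` is the most significant one), which is a witness of `W` for `j` or `2 ^ ℓ j` -/
def WN (W : ℕ → ℕ → Bool) (ℓ : ℕ → ℕ) (m v : ℕ) : Bool :=
  decide (v < 2 ^ lenN ℓ m) && (List.range (m + 1)).all fun j =>
    decide (v / 2 ^ (lenN ℓ m - lenN ℓ j) % 2 ^ (ℓ j + 1) = 2 ^ ℓ j) ||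
      W j (v / 2 ^ (lenN ℓ m - lenN ℓ j) % 2 ^ (ℓ j + 1))

end Pool.Agent.CKP
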