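import Pool.Agent.Lib_helper74.KY.Defs

/-! Keys, block C1 (helper52, helper74): correctness of one query. -/

set_option autoImplicit false
set_option linter.unusedSectionVars false

namespace Pool.Agent.CKP

open Pool.Agent.CK

variable {O : Lang}
variable {α β γ δ : Type} [ToD α] [ToD β] [ToD γ] [ToD δ]

section spec

variable {W : ℕ → ℕ → Bool} {r k c : ℕ} {N : List Unit} {T : List (Bool × ℕ)} {z q : List Bool}

theorem c1_badK_iff {ws : List (Bool × ℕ)} :
    badK T ws = true ↔ ∃ i < ws.length, (ent T i).1 = true ∧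
      ((ent ws i).1 = false ∨ (ent T i).2 < (ent ws i).2) := by
  unfold badK
  rw [ulen_eq, rangeU_replicate, List.any_map, List.any_eq_true]
  simp only [List.mem_range, Function.comp_apply, List.length_replicate, Bool.and_eq_true,
    Bool.or_eq_true, Bool.not_eq_true', decide_eq_true_eq]

theorem bad_guard {ws : List (Bool × ℕ)} (hT : ∀ i < ws.length, LeastSpec W i (ent T i))
    (h : badK T ws = true) : ∃ v, guardW W ws v = true := by
  obtain ⟨i, hi, h1, h2⟩ := c1_badK_iff.mp h
  exact ⟨(ent T i).2, guardW_iff.mpr ⟨i, hi, h2, ((hT i hi).2 h1).1⟩⟩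

theorem guard_bad {ws : List (Bool × ℕ)} (hT : ∀ i < ws.length, LeastSpec W i (ent T i))
    {v : ℕ} (h : guardW W ws v = true) : badK T ws = true := by
  obtain ⟨i, hi, h1, h2⟩ := guardW_iff.mp h
  have h3 : (ent T i).1 = true := (hT i hi).1.mpr ⟨v, h2⟩
  have h4 : (ent T i).2 ≤ v := by
    by_contra h5
    exact ((hT i hi).2 h3).2 v (not_le.mp h5) h2
  refine c1_badK_iff.mpr ⟨i, hi, h3, ?_⟩
  rcases h1 with h1 | h1
  · exact Or.inl h1
  · exact Or.inr (h4.trans_lt h1)

theorem leastSpec_of_noguard (h1 : valid W r k q = true) (h2 : ∀ v, guardW W (wss q) v = false)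
    {i : ℕ} (hi : i < (wss q).length) : LeastSpec W i (ent (wss q) i) := by
  have hc : ∀ j < (wss q).length, (ent (wss q) j).1 = true →
      W j (ent (wss q) j).2 = true := by
    unfold valid at h1
    rw [Bool.and_eq_true] at h1
    exact checkW_iff.mp h1.2
  have hg : ∀ v, ((ent (wss q) i).1 = false ∨ v < (ent (wss q) i).2) → ¬ W i v = true := by
    intro v hv hW
    have h3 : guardW W (wss q) v = true := guardW_iff.mpr ⟨i, hi, hv, hW⟩
    rw [h2 v] at h3
    exact absurd h3 (by simp)
  refine ⟨⟨fun h => ⟨_, hc i hi h⟩, ?_⟩, fun h => ⟨hc i hi h, fun v hv => hg v (Or.inr hv)⟩⟩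
  rintro ⟨v, hv⟩
  cases he : (ent (wss q) i).1 with
  | true => rfl
  | false => exact absurd hv (hg v (Or.inl he))

theorem noguard_of_not_bad (hT : ∀ i ≤ 3 * q.length + 1, LeastSpec W i (ent T i))
    (h : badK T (wss q) = false) (v : ℕ) : guardW W (wss q) v = false := by
  rw [← Bool.not_eq_true]
  intro h3
  have h4 := guard_bad (fun i hi => hT i (hi.le.trans (wss_le q))) h3
  rw [h] at h4
  exact absurd h4 (by simp)

/-- the answer to a query, up to `brute` -/
theorem valK_eq_of (hT : ∀ i ≤ 3 * q.length + 1, LeastSpec W i (ent T i))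
    (hb : typ q = true → valid W r k q = true → badK T (wss q) = false →
      ((brute O (xx q) N).2 = true ↔ UK O (xx q) = true)) :
    valK O W r k N T q = CL O W r k q := by
  rw [Bool.eq_iff_iff, CL_iff]
  unfold valK CLP
  by_cases ht : typ q = true
  · rw [if_pos ht]
    cases hv : valid W r k q with
    | false => simp [ht]
    | true =>
      cases hbad : badK T (wss q) with
      | true =>
        obtain ⟨v, hg⟩ := bad_guard (fun i hi => hT i (hi.le.trans (wss_le q))) hbad
        simp only [Bool.true_and, Bool.true_or, true_iff]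
        exact Or.inr ⟨ht, trivial, Or.inr ⟨v, hg⟩⟩
      | false =>
        have h1 := noguard_of_not_bad hT hbad
        simp only [Bool.true_and, Bool.false_or]
        rw [hb ht hv hbad]
        constructor
        · intro h
          exact Or.inr ⟨ht, trivial, Or.inl h⟩
        · rintro (⟨h, -⟩ | ⟨-, -, h | ⟨v, h⟩⟩)
          · rw [ht] at h
            exact absurd h (by simp)
          · exact h
          · rw [h1 v] at h
            exact absurd h (by simp)
  · rw [if_neg ht, Bool.and_eq_true, decide_eq_true_eq]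
    have h4 := hT _ (colr_le q)
    constructor
    · rintro ⟨h5, h6⟩
      exact Or.inl ⟨by simpa using ht, _, h6, (h4.2 h5).1⟩
    · rintro (⟨-, v, hv, hW⟩ | ⟨h3, -⟩)
      · have h5 : (ent T (colr q).length).1 = true := h4.1.mpr ⟨v, hW⟩
        refine ⟨h5, ?_⟩
        by_contra h6
        exact (h4.2 h5).2 v (lt_of_lt_of_le hv (not_lt.mp h6)) hW
      · exact absurd h3 ht

theorem valK_eq (hr : 1 ≤ r) (hT : ∀ i ≤ 3 * q.length + 1, LeastSpec W i (ent T i))
    (hN : 2 ^ rt r (2 * (z.length + 2) ^ c) ≤ N.length)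
    (hl : longK W r k c T z q = false) : valK O W r k N T q = CL O W r k q := by
  refine valK_eq_of hT fun ht hv hb => brute_eq ?_
  unfold longK at hl
  rw [ht, hv, hb] at hl
  simp only [Bool.true_and, Bool.not_false, decide_eq_false_iff_not, not_le] at hl
  refine le_trans (Nat.pow_le_pow_right (by norm_num) (rt_ge hr ?_)) hN
  unfold valid at hv
  rw [Bool.and_eq_true, Bool.and_eq_true, decide_eq_true_eq] at hv
  exact hv.1.1.trans hl.le

theorem longK_spec (hT : ∀ i ≤ 3 * q.length + 1, LeastSpec W i (ent T i))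
    (hl : longK W r k c T z q = true) :
    typ q = true ∧ valid W r k q = true ∧ cutK c z ≤ (wss q).length ∧
      ∀ i < (wss q).length, LeastSpec W i (ent (wss q) i) := by
  unfold longK at hl
  rw [Bool.and_eq_true, Bool.and_eq_true, Bool.and_eq_true, Bool.not_eq_true',
    decide_eq_true_eq] at hl
  obtain ⟨h0, h1, h2, h3⟩ := hl
  exact ⟨h0, h1, h3, fun i hi => leastSpec_of_noguard h1 (noguard_of_not_bad hT h2) hi⟩

theorem leastSpec_of_not (h0 : typ q = true) (h1 : valid W r k q = true)
    (h2 : CL O W r k q = false) {i : ℕ} (hi : i < (wss q).length) :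
    LeastSpec W i (ent (wss q) i) := by
  refine leastSpec_of_noguard h1 (fun v => ?_) hi
  rw [← Bool.not_eq_true]
  intro hv
  rw [← Bool.not_eq_true, CL_iff] at h2
  exact h2 (Or.inr ⟨h0, h1, Or.inr ⟨v, hv⟩⟩)

end spec

end Pool.Agent.CKP
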