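import Pool.Agent.Lib_helper74.KY.DefsR
import Pool.Agent.Lib_helper74.KY.Blk.C1
/-! Keys, block X2 (helper59): correctness of `decR`. -/

set_option autoImplicit false
set_option linter.unusedSectionVars false

namespace Pool.Agent.CKP

open Pool.Agent.CK

variable {O : Lang}

theorem x2_arith {a N c r : ℕ} (hN : 16 ≤ N) (hr : r = 3 * (c + 1)) (ha : 2 ≤ a)
    (h : (a - 2) ^ r < 2 * N ^ c) : a ^ 2 ≤ N := by
  by_contra hlt
  rw [not_le] at hlt
  have h5 : 5 ≤ a := by
    by_contra h6
    have h7 : a ≤ 4 := by omega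
    have h8 : a ^ 2 ≤ 4 ^ 2 := Nat.pow_le_pow_left h7 2
    omega
  obtain ⟨b, rfl⟩ : ∃ b, a = b + 2 := ⟨a - 2, by omega⟩
  have hb : 3 ≤ b := by omega
  rw [Nat.add_sub_cancel] at h
  have h6 : (b + 2) ^ 2 ≤ b ^ 3 := by
    obtain ⟨d, rfl⟩ : ∃ d, b = d + 3 := ⟨b - 3, by omega⟩
    ring_nf
    nlinarith [Nat.zero_le d, Nat.zero_le (d ^ 2), Nat.zero_le (d ^ 3)]
  have h7 : N ≤ b ^ 3 := hlt.le.trans h6
  have h8 : N ^ (c + 1) ≤ b ^ r := by
    rw [hr, pow_mul]
    exact Nat.pow_le_pow_left h7 _
  have h9 : 2 * N ^ c ≤ N ^ (c + 1) := by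
    rw [pow_succ, mul_comm 2]
    exact Nat.mul_le_mul_left _ (by omega)
  omega

section

variable {W : ℕ → ℕ → Bool} {c k n0 : ℕ} {Q : List Bool → List (List Bool)}
    {V : List Bool → List Bool → Bool} {T : List (Bool × ℕ)} {y : List Bool}

/-- the condition on the length in `okR` is automatic -/
theorem x2_short {r : ℕ} (hr : r = 3 * (c + 1)) (hn0 : 14 ≤ n0) {z q : List Bool}
    (hshort : ∀ q ∈ Q z, typ q = true → valid W r k q = true →
      (∀ i < (wss q).length, LeastSpec W i (ent (wss q) i)) →
      (wss q).length < 2 * (z.length + 2) ^ c)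
    (hz : n0 ≤ z.length) (hq : q ∈ Q z)
    (hT : ∀ i ≤ 3 * q.length + 1, LeastSpec W i (ent T i))
    (h0 : typ q = true) (h1 : valid W r k q = true) (h2 : badK T (wss q) = false) :
    ((xx q).length + 2) ^ 2 ≤ z.length + 2 := by
  have h3 : (wss q).length < 2 * (z.length + 2) ^ c := by
    by_contra h4
    rw [not_lt] at h4
    have h5 : longK W r k c T z q = true := by
      unfold longK cutK
      simp only [h0, h1, h2, Bool.not_false, Bool.true_and, decide_eq_true_eq]
      exact h4
    have h6 := (longK_spec hT h5).2.2.2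
    exact absurd (hshort q hq h0 h1 h6) (not_lt.mpr h4)
  have h4 : (xx q).length ^ r ≤ (wss q).length := by
    unfold valid at h1
    rw [Bool.and_eq_true, Bool.and_eq_true, decide_eq_true_eq] at h1
    exact h1.1.1
  refine x2_arith (c := c) (r := r) (by omega) hr (by omega) ?_
  rw [Nat.add_sub_cancel]
  exact lt_of_le_of_lt h4 h3

theorem x2_bool {a b : Bool} (h : a = true ↔ b = true) : a = b := by
  cases a <;> cases b <;> simp_all

/-- one value -/
theorem x2_val {r : ℕ} (hr : r = 3 * (c + 1))
    (hUV : ∀ z, UK O z = V z ((Q z).map (CL O W r k))) (hn0 : 14 ≤ n0) {U : List Unit}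
    (hU : 2 ^ n0 ≤ U.length) {z : List Bool}
    (hshort : n0 ≤ z.length → ∀ q ∈ Q z, typ q = true → valid W r k q = true →
      (∀ i < (wss q).length, LeastSpec W i (ent (wss q) i)) →
      (wss q).length < 2 * (z.length + 2) ^ c)
    (hT : ∀ q ∈ Q z, ∀ i ≤ 3 * q.length + 1, LeastSpec W i (ent T i))
    {φ : List Bool → Bool}
    (hφ : n0 ≤ z.length → ∀ q ∈ Q z, okR W r k T z q = true → φ (xx q) = UK O (xx q)) :
    valR O W r k Q V n0 U T φ z = UK O z := by
  unfold valR
  by_cases hz : z.length < n0
  · rw [if_pos (by simpa using hz)]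
    apply x2_bool
    apply brute_eq
    exact (Nat.pow_le_pow_right (by norm_num) hz).trans hU
  · rw [if_neg (by simpa using hz), hUV]
    rw [not_lt] at hz
    congr 1
    refine List.map_congr_left fun q hq => ?_
    have hTq := hT q hq
    have hTw : ∀ i < (wss q).length, LeastSpec W i (ent T i) := fun i hi =>
      hTq i (hi.le.trans (wss_le q))
    by_cases hok : okR W r k T z q = true
    · rw [if_pos hok, hφ hz q hq hok]
      have hok' := hok
      unfold okR at hok'
      simp only [Bool.and_eq_true, Bool.not_eq_true', decide_eq_true_eq] at hok'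
      obtain ⟨h0, h1, h2, -⟩ := hok'
      apply x2_bool
      rw [CL_iff]
      constructor
      · intro h
        exact Or.inr ⟨h0, h1, Or.inl h⟩
      · rintro (⟨h3, -⟩ | ⟨-, -, h3⟩)
        · rw [h0] at h3
          exact absurd h3 (by simp)
        · rcases h3 with h3 | ⟨v, h3⟩
          · exact h3
          · have h4 := guard_bad hTw h3
            rw [h2] at h4
            exact absurd h4 (by simp)
    · rw [if_neg hok]
      apply x2_bool
      rw [CL_iff]
      unfold valK
      by_cases ht : typ q = true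
      · rw [if_pos ht]
        by_cases hv : valid W r k q = true
        · have hb : badK T (wss q) = true := by
            by_contra hb
            rw [Bool.not_eq_true] at hb
            apply hok
            have h5 := x2_short hr hn0 (hshort hz) hz hq hTq ht hv hb
            unfold okR
            simp only [ht, hv, hb, Bool.not_false, Bool.true_and, decide_eq_true_eq]
            exact h5
          rw [hv, hb]
          simp only [Bool.true_or, Bool.and_self, true_iff]
          obtain ⟨v, hv'⟩ := bad_guard hTw hb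
          exact Or.inr ⟨ht, hv, Or.inr ⟨v, hv'⟩⟩
        · rw [Bool.not_eq_true] at hv
          rw [hv]
          simp only [Bool.false_and, Bool.false_eq_true, false_iff]
          rintro (⟨h3, -⟩ | ⟨-, h3, -⟩)
          · rw [ht] at h3
            exact absurd h3 (by simp)
          · rw [hv] at h3
            exact absurd h3 (by simp)
      · rw [if_neg ht, Bool.and_eq_true, decide_eq_true_eq]
        have h4 := hTq _ (colr_le q)
        constructor
        · rintro ⟨h5, h6⟩
          exact Or.inl ⟨by simpa using ht, _, h6, (h4.2 h5).1⟩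
        · rintro (⟨-, v, hv, hW⟩ | ⟨h3, -⟩)
          · have h5 : (ent T (colr q).length).1 = true := h4.1.mpr ⟨v, hW⟩
            refine ⟨h5, ?_⟩
            by_contra h6
            exact (h4.2 h5).2 v (lt_of_lt_of_le hv (not_lt.mp h6)) hW
          · exact absurd h3 ht

theorem x2_num {a b : List Bool} (h : num a = num b) : a = b := by
  have := congrArg str h
  rwa [str_num, str_num] at this

theorem x2_lk (L : List (List Bool)) (g : List Bool → Bool) {z : List Bool} (hz : z ∈ L) :
    lkR (L.map fun s => (s, g s)) z = g z := by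
  unfold lkR
  rw [List.any_map]
  apply x2_bool
  rw [List.any_eq_true]
  constructor
  · rintro ⟨s, -, h⟩
    simp only [Function.comp_apply, Bool.and_eq_true, decide_eq_true_eq] at h
    rw [← x2_num h.1]
    exact h.2
  · intro h
    refine ⟨z, hz, ?_⟩
    simp only [Function.comp_apply, Bool.and_eq_true, decide_eq_true_eq]
    exact ⟨trivial, h⟩

/-- subinstances are shorter -/
theorem x2_sub {r : ℕ} {z s : List Bool} (h : s ∈ subR W r k Q n0 T z) :
    s.length + 1 ≤ z.length ∧ n0 ≤ z.length := by
  unfold subR at h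
  split_ifs at h with h1
  · simp at h
  · rw [List.mem_map] at h
    obtain ⟨q, hq, rfl⟩ := h
    rw [List.mem_filter] at hq
    have h2 := hq.2
    unfold okR at h2
    simp only [Bool.and_eq_true, Bool.not_eq_true', decide_eq_true_eq] at h2
    have h3 := h2.2.2.2
    have h1' : ¬ z.length < n0 := by simpa using h1
    refine ⟨?_, by omega⟩
    have h4 : 2 * ((xx q).length + 2) ≤ ((xx q).length + 2) ^ 2 := by
      rw [sq]
      exact Nat.mul_le_mul_right _ (by omega)
    omega

theorem x2_mem_sub {r : ℕ} {z q : List Bool} (hz : n0 ≤ z.length) (hq : q ∈ Q z)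
    (hok : okR W r k T z q = true) : xx q ∈ subR W r k Q n0 T z := by
  unfold subR
  rw [if_neg (by simpa using hz)]
  exact List.mem_map.mpr ⟨q, List.mem_filter.mpr ⟨hq, hok⟩, rfl⟩

/-- one step of `closR` -/
def x2_step (W : ℕ → ℕ → Bool) (r k : ℕ) (Q : List Bool → List (List Bool)) (n0 : ℕ)
    (T : List (Bool × ℕ)) (s : List (List Bool) × List (List Bool)) :
    List (List Bool) × List (List Bool) :=
  (s.1 ++ s.2.flatMap (subR W r k Q n0 T), s.2.flatMap (subR W r k Q n0 T))

theorem x2_iter (r : ℕ) (y : List Bool) (i : ℕ) :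
    let s := (x2_step W r k Q n0 T)^[i] ([y], [y])
    (∀ x ∈ s.2, x.length + i ≤ y.length) ∧ (∀ x ∈ s.2, x ∈ s.1) ∧ y ∈ s.1 ∧
      (∀ x ∈ s.1, x.length ≤ y.length) ∧
      ∀ x ∈ s.1, x ∈ s.2 ∨ ∀ z ∈ subR W r k Q n0 T x, z ∈ s.1 := by
  induction i with
  | zero => simp
  | succ i ih =>
    rw [Function.iterate_succ_apply']
    obtain ⟨h1, h2, h3, h4, h5⟩ := ih
    set s := (x2_step W r k Q n0 T)^[i] ([y], [y]) with hs
    have hx : ∀ x ∈ s.2.flatMap (subR W r k Q n0 T), x.length + (i + 1) ≤ y.length := by
      intro x hx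
      rw [List.mem_flatMap] at hx
      obtain ⟨z, hz, hxz⟩ := hx
      have := (x2_sub hxz).1
      have := h1 z hz
      omega
    simp only [x2_step]
    refine ⟨hx, fun x hx => List.mem_append_right _ hx, List.mem_append_left _ h3, ?_, ?_⟩
    · intro x hx'
      rcases List.mem_append.mp hx' with h | h
      · exact h4 x h
      · have := hx x h
        omega
    · intro x hx'
      rcases List.mem_append.mp hx' with h | h
      · right
        intro z hz
        rcases h5 x h with h6 | h6
        · exact List.mem_append_right _ (List.mem_flatMap.mpr ⟨x, h6, hz⟩)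
        · exact List.mem_append_left _ (h6 z hz)
      · exact Or.inl h

theorem x2_foldl {α : Type} (f : α → α) (a : α) (l : List Unit) :
    l.foldl (fun b _ => f b) a = f^[l.length] a := by
  induction l generalizing a with
  | nil => rfl
  | cons x l ih => rw [List.foldl_cons, ih, List.length_cons, Function.iterate_succ_apply]

theorem decR_eq {W : ℕ → ℕ → Bool} {c k n0 : ℕ} {Q : List Bool → List (List Bool)}
    {V : List Bool → List Bool → Bool}
    (hUV : ∀ z, UK O z = V z ((Q z).map (CL O W (3 * (c + 1)) k))) (hn0 : 14 ≤ n0)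
    {U : List Unit} (hU : 2 ^ n0 ≤ U.length) {T : List (Bool × ℕ)} {y : List Bool}
    (hshort : ∀ z : List Bool, n0 ≤ z.length → z.length ≤ y.length → ∀ q ∈ Q z, typ q = true →
      valid W (3 * (c + 1)) k q = true →
      (∀ i < (wss q).length, LeastSpec W i (ent (wss q) i)) →
      (wss q).length < 2 * (z.length + 2) ^ c)
    (hT : ∀ z : List Bool, z.length ≤ y.length → ∀ q ∈ Q z, ∀ i ≤ 3 * q.length + 1,
      LeastSpec W i (ent T i)) :
    decR O W (3 * (c + 1)) k Q V n0 U T y = UK O y := by
  obtain ⟨r, hr⟩ : ∃ r, r = 3 * (c + 1) := ⟨_, rfl⟩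
  rw [← hr] at hUV hshort ⊢
  have hlen : (() :: ulen y).length = y.length + 1 := by
    rw [List.length_cons, ulen_eq, List.length_replicate]
  have hclos : closR W r k Q n0 T y (() :: ulen y) =
      (x2_step W r k Q n0 T)^[y.length + 1] ([y], [y]) := by
    unfold closR
    rw [← hlen]
    exact x2_foldl (x2_step W r k Q n0 T) _ _
  obtain ⟨h1, h2, h3, h4, h5⟩ := x2_iter (W := W) (k := k) (Q := Q) (n0 := n0) (T := T) r y
    (y.length + 1)
  unfold decR
  rw [hclos]
  set L := ((x2_step W r k Q n0 T)^[y.length + 1] ([y], [y])).1 with hL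
  have hcl : ∀ x ∈ L, ∀ z ∈ subR W r k Q n0 T x, z ∈ L := by
    intro x hx
    rcases h5 x hx with h | h
    · have := h1 x h
      omega
    · exact h
  have hpass : ∀ i : ℕ, ∃ g : List Bool → Bool,
      (fun A => passR O W r k Q V n0 U T A)^[i] (L.map fun s => (s, false)) =
        L.map (fun s => (s, g s)) ∧ ∀ z ∈ L, z.length < i → g z = UK O z := by
    intro i
    induction i with
    | zero => exact ⟨fun _ => false, rfl, fun z _ h => absurd h (by omega)⟩
    | succ i ih =>
      obtain ⟨g, hg, hgv⟩ := ih
      rw [Function.iterate_succ_apply', hg]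
      refine ⟨fun s => valR O W r k Q V n0 U T (lkR (L.map fun s => (s, g s))) s, ?_, ?_⟩
      · unfold passR
        rw [List.map_map]
        rfl
      · intro z hz hzi
        refine x2_val hr hUV hn0 hU (fun hzn => hshort z hzn (h4 z hz))
          (fun q hq => hT z (h4 z hz) q hq) ?_
        intro hzn q hq hok
        have h6 := x2_mem_sub (Q := Q) hzn hq hok
        have h7 := hcl z hz _ h6
        rw [x2_lk L g h7]
        exact hgv _ h7 (by
          have := (x2_sub h6).1
          omega)
  obtain ⟨g, hg, hgv⟩ := hpass (y.length + 1)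
  rw [x2_foldl (fun A => passR O W r k Q V n0 U T A), hlen, hg, x2_lk L g h3]
  exact hgv y h3 (by omega)

end

end Pool.Agent.CKP

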