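import Pool.Agent.Lib_helper74.KY.Defs
import Pool.Agent.Lib_helper74.KY.Blk.C1
/-! Block C2 (helper76): the minimum of the entries (MP_675993_lc). -/

set_option autoImplicit false
set_option linter.unusedSectionVars false

namespace Pool.Agent.CKP

open Pool.Agent.CK

variable {O : Lang}
variable {α β γ δ : Type} [ToD α] [ToD β] [ToD γ] [ToD δ]

section spec

variable {W : ℕ → ℕ → Bool} {r k c : ℕ} {N : List Unit} {T : List (Bool × ℕ)} {z q : List Bool}

theorem c2_minE {j : ℕ} {a b : Bool × ℕ} (ha : a.1 = true → W j a.2 = true)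
    (hb : b.1 = true → W j b.2 = true) :
    ((minE a b).1 = true → W j (minE a b).2 = true) ∧
      (a.1 = true → (minE a b).1 = true ∧ (minE a b).2 ≤ a.2) ∧
      (b.1 = true → (minE a b).1 = true ∧ (minE a b).2 ≤ b.2) := by
  unfold minE
  split_ifs with h
  · rw [Bool.and_eq_true, Bool.or_eq_true, Bool.not_eq_true', decide_eq_true_eq] at h
    refine ⟨hb, fun h1 => ⟨h.1, ?_⟩, fun h1 => ⟨h1, le_rfl⟩⟩
    rcases h.2 with h2 | h2
    · rw [h1] at h2
      exact absurd h2 (by decide)
    · exact h2.le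
  · refine ⟨ha, fun h1 => ⟨h1, le_rfl⟩, fun h1 => ?_⟩
    rw [Bool.and_eq_true, Bool.or_eq_true, Bool.not_eq_true', decide_eq_true_eq] at h
    push Not at h
    have h2 := h h1
    refine ⟨?_, h2.2⟩
    cases h3 : a.1
    · exact absurd h3 h2.1
    · rfl

theorem c2_fold {j : ℕ} (l : List (Bool × ℕ)) : ∀ a : Bool × ℕ,
    (∀ s ∈ l, s.1 = true → W j s.2 = true) → (a.1 = true → W j a.2 = true) →
      ((l.foldl minE a).1 = true → W j (l.foldl minE a).2 = true) ∧
      (a.1 = true → (l.foldl minE a).1 = true ∧ (l.foldl minE a).2 ≤ a.2) ∧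
      ∀ s ∈ l, s.1 = true → (l.foldl minE a).1 = true ∧ (l.foldl minE a).2 ≤ s.2 := by
  induction l with
  | nil =>
    intro a _ ha
    exact ⟨ha, fun h => ⟨h, le_rfl⟩, fun s hs => absurd hs (by simp)⟩
  | cons b t ih =>
    intro a hl ha
    have h1 := c2_minE ha (hl b (by simp))
    have h2 := ih (minE a b) (fun s hs => hl s (by simp [hs])) h1.1
    rw [List.foldl_cons]
    refine ⟨h2.1, fun h3 => ?_, fun s hs h3 => ?_⟩
    · have h4 := h1.2.1 h3
      have h5 := h2.2.1 h4.1
      exact ⟨h5.1, h5.2.trans h4.2⟩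
    · rcases List.mem_cons.1 hs with h4 | h4
      · subst h4
        have h5 := h1.2.2 h3
        have h6 := h2.2.1 h5.1
        exact ⟨h6.1, h6.2.trans h5.2⟩
      · exact h2.2.2 s h4 h3

theorem minL_spec {j : ℕ} {l : List (Bool × ℕ)} (h : ∀ s ∈ l, s.1 = true → W j s.2 = true)
    {s : Bool × ℕ} (hs : s ∈ l) (hs' : LeastSpec W j s) : LeastSpec W j (minL l) := by
  have h1 := c2_fold l (false, 0) h (fun h2 => absurd h2 (by decide))
  change (((minL l).1 = true → W j (minL l).2 = true) ∧ _ ∧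
    ∀ s ∈ l, s.1 = true → (minL l).1 = true ∧ (minL l).2 ≤ s.2) at h1
  obtain ⟨ha, -, hb⟩ := h1
  cases h2 : s.1
  · have h3 : ¬ ∃ v, W j v = true := by
      intro h4
      have h5 := hs'.1.2 h4
      rw [h2] at h5
      exact absurd h5 (by decide)
    have h6 : (minL l).1 ≠ true := fun h7 => h3 ⟨_, ha h7⟩
    exact ⟨⟨fun h7 => absurd h7 h6, fun h7 => absurd h7 h3⟩, fun h7 => absurd h7 h6⟩
  · have h3 := hb s hs h2
    have h4 := hs'.2 h2
    have h5 := ha h3.1
    have h6 : (minL l).2 = s.2 := by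
      refine le_antisymm h3.2 ?_
      by_contra h7
      push Not at h7
      exact h4.2 _ h7 h5
    refine ⟨⟨fun _ => ⟨_, h5⟩, fun _ => h3.1⟩, fun _ => ⟨h5, ?_⟩⟩
    rw [h6]
    exact h4.2

theorem mem_entsK {x : List Bool} {l : List (List Bool)} {s : Bool × ℕ} :
    s ∈ entsK W r k x l ↔ ∃ q ∈ l, typ q = true ∧ valid W r k q = true ∧
      num x < (wss q).length ∧ s = ent (wss q) (num x) := by
  unfold entsK
  rw [List.mem_map]
  refine exists_congr fun q => ?_
  rw [List.mem_filter, Bool.and_eq_true, Bool.and_eq_true, decide_eq_true_eq]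
  constructor
  · rintro ⟨⟨h1, h2, h3, h4⟩, h5⟩
    refine ⟨h1, h2, h3, h4, ?_⟩
    rw [← h5, toNum_eq _ _ (by rw [ulen_eq, List.length_replicate]; exact h4.le),
      List.length_replicate]
  · rintro ⟨h1, h2, h3, h4, h5⟩
    refine ⟨⟨h1, h2, h3, h4⟩, ?_⟩
    rw [h5, toNum_eq _ _ (by rw [ulen_eq, List.length_replicate]; exact h4.le),
      List.length_replicate]

theorem entsK_true {x : List Bool} {l : List (List Bool)} {s : Bool × ℕ}
    (h : s ∈ entsK W r k x l) (h1 : s.1 = true) : W (num x) s.2 = true := by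
  obtain ⟨q, -, -, hv, hx, hs⟩ := mem_entsK.1 h
  unfold valid at hv
  rw [Bool.and_eq_true] at hv
  rw [hs] at h1 ⊢
  exact checkW_iff.1 hv.2 _ hx h1

theorem keyK_eq {ans : List Unit → ℕ → Bool} {x : List Bool} {a : Bool}
    {l : List (List Bool)}
    (hans : ∀ s : Bool × ℕ, LeastSpec W (num x) s → ans (List.replicate (num x) ()) s.2 = a)
    (hq : q ∈ l) (h0 : typ q = true) (h1 : valid W r k q = true)
    (h2 : num x < (wss q).length) (h3 : LeastSpec W (num x) (ent (wss q) (num x))) :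
    keyK W r k ans x l = [a] := by
  have hm : ent (wss q) (num x) ∈ entsK W r k x l :=
    mem_entsK.2 ⟨q, hq, h0, h1, h2, rfl⟩
  have h4 : LeastSpec W (num x) (minL (entsK W r k x l)) :=
    minL_spec (fun s hs h5 => entsK_true hs h5) hm h3
  have h5 : num x ≤ (l.flatMap fun q => ulen (wss q)).length := by
    obtain ⟨s, t, rfl⟩ := List.append_of_mem hq
    rw [List.flatMap_append, List.flatMap_cons, List.length_append, List.length_append, ulen_eq,
      List.length_replicate]
    omega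
  have h6 : (entsK W r k x l).isEmpty ≠ true := by
    intro h7
    rw [List.isEmpty_iff] at h7
    rw [h7] at hm
    exact absurd hm (by simp)
  unfold keyK
  rw [if_neg h6, toNum_eq _ _ h5, hans _ h4]

theorem keyK_sound {ans : List Unit → ℕ → Bool} {x : List Bool} {a : Bool}
    {l : List (List Bool)}
    (hans : ∀ s : Bool × ℕ, LeastSpec W (num x) s → ans (List.replicate (num x) ()) s.2 = a)
    (hl : ∀ q ∈ l, CL O W r k q = false) :
    keyK W r k ans x l = [] ∨ keyK W r k ans x l = [a] := by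
  by_cases h : (entsK W r k x l).isEmpty = true
  · left
    unfold keyK
    rw [if_pos h]
  · right
    rw [List.isEmpty_iff] at h
    obtain ⟨s, hs⟩ := List.exists_mem_of_ne_nil _ h
    obtain ⟨q, hq, h0, h1, h2, -⟩ := mem_entsK.1 hs
    exact keyK_eq hans hq h0 h1 h2 (leastSpec_of_not h0 h1 (hl q hq) h2)


end spec

end Pool.Agent.CKP
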