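import Pool.Agent.Lib_helper74.KY.Defs
import Pool.Agent.Lib_helper74.NF.CL
import Pool.Agent.Lib_helper74.NF.SearchPT
import Pool.Agent.Lib_helper74.NF.Final
/-!
# Keys: block P1, polynomial time of the functions of the core lemma (project KEY, MP_675993_lc)
-/

set_option autoImplicit false
set_option linter.unusedSectionVars false

namespace Pool.Agent.CKP

open Pool.Agent.CK

variable {O : Lang}
variable {α β γ δ : Type} [ToD α] [ToD β] [ToD γ] [ToD δ]

theorem PTime.badK {T ws : γ → List (Bool × ℕ)} (hT : PTime O T) (hws : PTime O ws) :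
    PTime O (fun a => CKP.badK (T a) (ws a)) := by
  unfold CKP.badK
  refine PTime.any (f := fun a u => (CKP.ent (T a) u.length).1 && (!(CKP.ent (ws a) u.length).1 ||
    decide ((CKP.ent (T a) u.length).2 < (CKP.ent (ws a) u.length).2)))
    (PTime.rangeU hws.ulen) ?_
  have h1 : PTime O (fun p : γ × List Unit => CKP.ent (ws p.1) p.2.length) :=
    PTime.ent (hws.comp PTime.id.fst) PTime.id.snd
  have h2 : PTime O (fun p : γ × List Unit => CKP.ent (T p.1) p.2.length) :=
    PTime.ent (hT.comp PTime.id.fst) PTime.id.snd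
  exact h2.fst.and ((h1.fst.not).or (PTime.nat_lt h2.snd h1.snd))

theorem p1_upoly (c : ℕ) : UPoly O (fun n => 2 * (n + 2) ^ c) :=
  (UPoly.const 2).mul (((UPoly.id).add (UPoly.const 2)).pow c)

theorem PTime.cutK (c : ℕ) {z : γ → List Bool} (hz : PTime O z) :
    PTime O (fun a => CKP.cutK c (z a)) :=
  PTime.npow hz (fun n => 2 * (n + 2) ^ c) (p1_upoly c)

theorem PTime.longK {W : ℕ → ℕ → Bool} {ℓ : ℕ → ℕ} (hver : Ver O W ℓ) (r k c : ℕ)
    {T : γ → List (Bool × ℕ)} {z q : γ → List Bool} (hT : PTime O T) (hz : PTime O z)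
    (hq : PTime O q) : PTime O (fun a => CKP.longK W r k c (T a) (z a) (q a)) := by
  unfold CKP.longK
  exact hq.typ.and ((PTime.valid hver r k hq).and (((PTime.badK hT hq.wss).not).and
    (PTime.nat_le (PTime.cutK c hz) hq.wss.length)))

theorem PTime.valK {W : ℕ → ℕ → Bool} {ℓ : ℕ → ℕ} (hver : Ver O W ℓ) (r k : ℕ)
    {N : γ → List Unit} {T : γ → List (Bool × ℕ)} {q : γ → List Bool} (hN : PTime O N)
    (hT : PTime O T) (hq : PTime O q) :
    PTime O (fun a => CKP.valK O W r k (N a) (T a) (q a)) := by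
  unfold CKP.valK
  have hent := PTime.ent hT hq.colr
  exact PTime.ite hq.typ ((PTime.valid hver r k hq).and
    ((PTime.badK hT hq.wss).or (PTime.brute hq.xx hN).snd))
    (hent.fst.and (PTime.nat_lt hent.snd hq.thr))

theorem p1_anylong {W : ℕ → ℕ → Bool} {ℓ : ℕ → ℕ} (hver : Ver O W ℓ) (r k c : ℕ)
    {T : γ → List (Bool × ℕ)} {z : γ → List Bool} {l : γ → List (List Bool)} (hT : PTime O T)
    (hz : PTime O z) (hl : PTime O l) :
    PTime O (fun a => (l a).any fun q => CKP.longK W r k c (T a) (z a) q) :=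
  PTime.any (f := fun a q => CKP.longK W r k c (T a) (z a) q) hl
    (PTime.longK hver r k c (hT.comp PTime.id.fst) (hz.comp PTime.id.fst) PTime.id.snd)

theorem p1_evalV {W : ℕ → ℕ → Bool} {ℓ : ℕ → ℕ} (hver : Ver O W ℓ) (r k : ℕ)
    {V : List Bool → List Bool → Bool}
    (hV : PTime O (fun p : List Bool × List Bool => V p.1 p.2)) {N : γ → List Unit}
    {T : γ → List (Bool × ℕ)} {z : γ → List Bool} {l : γ → List (List Bool)} (hN : PTime O N)
    (hT : PTime O T) (hz : PTime O z) (hl : PTime O l) :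
    PTime O (fun a => V (z a) ((l a).map fun q => CKP.valK O W r k (N a) (T a) q)) :=
  hV.comp (hz.pair (PTime.map (f := fun a q => CKP.valK O W r k (N a) (T a) q) hl
    (PTime.valK hver r k (hN.comp PTime.id.fst) (hT.comp PTime.id.fst) PTime.id.snd)))

theorem PTime.yesK {W : ℕ → ℕ → Bool} {ℓ : ℕ → ℕ} (hver : Ver O W ℓ) (r k c : ℕ)
    {V : List Bool → List Bool → Bool}
    (hV : PTime O (fun p : List Bool × List Bool => V p.1 p.2)) {N : γ → List Unit}
    {T : γ → List (Bool × ℕ)} {z : γ → List Bool} {l : γ → List (List Bool)} (hN : PTime O N)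
    (hT : PTime O T) (hz : PTime O z) (hl : PTime O l) :
    PTime O (fun a => CKP.yesK O W r k c V (N a) (T a) (z a) (l a)) := by
  unfold CKP.yesK
  exact ((p1_anylong hver r k c hT hz hl).not).and (p1_evalV hver r k hV hN hT hz hl)

theorem PTime.noK {W : ℕ → ℕ → Bool} {ℓ : ℕ → ℕ} (hver : Ver O W ℓ) (r k c : ℕ)
    {V : List Bool → List Bool → Bool}
    (hV : PTime O (fun p : List Bool × List Bool => V p.1 p.2)) {N : γ → List Unit}
    {T : γ → List (Bool × ℕ)} {z : γ → List Bool} {l : γ → List (List Bool)} (hN : PTime O N)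
    (hT : PTime O T) (hz : PTime O z) (hl : PTime O l) :
    PTime O (fun a => CKP.noK O W r k c V (N a) (T a) (z a) (l a)) := by
  unfold CKP.noK
  exact ((p1_anylong hver r k c hT hz hl).not).and (p1_evalV hver r k hV hN hT hz hl).not

theorem PTime.entsK {W : ℕ → ℕ → Bool} {ℓ : ℕ → ℕ} (hver : Ver O W ℓ) (r k : ℕ)
    {x : γ → List Bool} {l : γ → List (List Bool)} (hx : PTime O x) (hl : PTime O l) :
    PTime O (fun a => CKP.entsK W r k (x a) (l a)) := by
  unfold CKP.entsK
  refine PTime.map (f := fun a q => CKP.ent (CKP.wss q)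
    (CKP.toNum (CKP.ulen (CKP.wss q)) (x a)).length) ?_ ?_
  · refine PTime.filter (f := fun a q => CKP.typ q && (CKP.valid W r k q &&
      decide (num (x a) < (CKP.wss q).length))) hl ?_
    have hq : PTime O (fun p : γ × List Bool => p.2) := PTime.id.snd
    refine hq.typ.and ((PTime.valid hver r k hq).and (PTime.nat_lt ?_ hq.wss.length))
    unfold num
    exact PTime.ofBits (PTime.append (hx.comp PTime.id.fst) (PTime.const [true]))
  · have hq : PTime O (fun p : γ × List Bool => p.2) := PTime.id.snd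
    exact PTime.ent hq.wss (PTime.toNum (PTime.ulen hq.wss) (hx.comp PTime.id.fst))

theorem p1_minE_sz (a b : Bool × ℕ) (B : ℕ) (ha : sz a ≤ B) (hb : sz b ≤ B) :
    sz (minE a b) ≤ B := by
  unfold minE
  split
  · exact hb
  · exact ha

theorem PTime.minL {l : γ → List (Bool × ℕ)} (hl : PTime O l) :
    PTime O (fun a => CKP.minL (l a)) := by
  obtain ⟨Pl, hPl⟩ := hl.size_le
  unfold CKP.minL
  refine PTime.foldl (l := l) (i := fun _ => ((false, 0) : Bool × ℕ)) (s := fun _ a b => minE a b)
    hl (PTime.const _) ?_ (Pl + 20) ?_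
  · have hs : PTime O (fun p : γ × (Bool × ℕ) × (Bool × ℕ) => p.2.1) := PTime.id.snd.fst
    have hy : PTime O (fun p : γ × (Bool × ℕ) × (Bool × ℕ) => p.2.2) := PTime.id.snd.snd
    unfold minE
    exact PTime.ite (hy.fst.and (hs.fst.not.or (PTime.nat_lt hy.snd hs.snd))) hy hs
  · intro x l' hl'
    have key : ∀ (B : ℕ) (l : List (Bool × ℕ)) (s : Bool × ℕ), (∀ y ∈ l, sz y ≤ B) →
        sz s ≤ B → sz (l.foldl (fun a b => minE a b) s) ≤ B := by
      intro B l
      induction l with
      | nil => intro s _ h; exact h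
      | cons y t ih =>
        intro s h1 h2
        rw [List.foldl_cons]
        exact ih _ (fun z hz => h1 z (List.mem_cons_of_mem _ hz))
          (p1_minE_sz _ _ _ h2 (h1 y List.mem_cons_self))
    have h3 := key (sz (l x) + 20) l' (false, 0)
      (fun y hy => (sz_le_of_mem (hl'.subset hy)).trans (Nat.le_add_right _ _)) (by
        have : sz ((false, 0) : Bool × ℕ) ≤ 20 := by decide
        omega)
    have h4 := hPl x
    simp only [Polynomial.eval_add, Polynomial.eval_ofNat]
    omega

theorem PTime.keyK {W : ℕ → ℕ → Bool} {ℓ : ℕ → ℕ} (hver : Ver O W ℓ) (r k : ℕ)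
    {ans : List Unit → ℕ → Bool} (hans : PTime O (fun p : List Unit × ℕ => ans p.1 p.2))
    {x : γ → List Bool} {l : γ → List (List Bool)} (hx : PTime O x) (hl : PTime O l) :
    PTime O (fun a => CKP.keyK W r k ans (x a) (l a)) := by
  unfold CKP.keyK
  have h1 := PTime.entsK hver r k hx hl
  have h2 : PTime O (fun a => (l a).flatMap fun q => CKP.ulen (CKP.wss q)) :=
    PTime.flatMap (f := fun _ q => CKP.ulen (CKP.wss q)) hl (PTime.ulen (PTime.wss PTime.id.snd))
  exact PTime.ite h1.isNil (PTime.const []) (PTime.cons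
    (hans.comp ((PTime.toNum h2 hx).pair (PTime.minL h1).snd)) (PTime.const []))


end Pool.Agent.CKP
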