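import Pool.Agent.Lib_helper74.KY.Defs
/-! Block T1 of project KEY (helper97): the table of least witnesses as an advice. -/

set_option autoImplicit false
set_option linter.unusedSectionVars false

namespace Pool.Agent.CKP

open Pool.Agent.CK

variable {O : Lang}
variable {α β γ δ : Type} [ToD α] [ToD β] [ToD γ] [ToD δ]

open Classical in
/-- the least witness for `i` -/
noncomputable def t1_e (W : ℕ → ℕ → Bool) (i : ℕ) : Bool × ℕ :=
  if h : ∃ v, W i v = true then (true, Nat.find h) else (false, 0)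

theorem t1_spec (W : ℕ → ℕ → Bool) (i : ℕ) : LeastSpec W i (t1_e W i) := by
  classical
  unfold t1_e
  by_cases h : ∃ v, W i v = true
  · rw [dif_pos h]
    exact ⟨⟨fun _ => h, fun _ => rfl⟩, fun _ => ⟨Nat.find_spec h, fun v hv => Nat.find_min h hv⟩⟩
  · rw [dif_neg h]
    refine ⟨⟨fun h1 => ?_, fun h1 => absurd h1 h⟩, fun h1 => ?_⟩
    · exact absurd h1 (by simp)
    · exact absurd h1 (by simp)

theorem t1_lt {W : ℕ → ℕ → Bool} {ℓ : ℕ → ℕ} (hver : Ver O W ℓ) (i : ℕ) :
    (t1_e W i).2 < 2 ^ ℓ i := by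
  classical
  unfold t1_e
  by_cases h : ∃ v, W i v = true
  · rw [dif_pos h]
    exact hver.hb i _ (Nat.find_spec h)
  · rw [dif_neg h]
    exact Nat.two_pow_pos _

theorem exists_advice {W : ℕ → ℕ → Bool} {ℓ : ℕ → ℕ} (hver : Ver O W ℓ) {b : ℕ → ℕ}
    (hb : UPoly O b) :
    ∃ τ : ℕ → List Bool, (∃ P : Polynomial ℕ, ∀ n, (τ n).length ≤ P.eval n) ∧
      (∀ n, τ n ≠ []) ∧ ∀ n, ∀ i < b n, LeastSpec W i (ent (wss (τ n)) i) := by
  obtain ⟨Pb, hPb⟩ := hb.bound
  obtain ⟨k, hk⟩ := exists_kbound hver.hl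
  refine ⟨fun n => q2 [] ((List.range (b n)).map (t1_e W)), ⟨(Pb + 2) ^ k, fun n => ?_⟩,
    fun n => ?_, fun n i hi => ?_⟩
  · have h1 := hk [] ((List.range (b n)).map (t1_e W)) (Nat.zero_le _) (fun i hi => by
      rw [List.length_map, List.length_range] at hi
      rw [ent_map_range _ _ _ hi]
      exact t1_lt hver i)
    rw [List.length_map, List.length_range] at h1
    refine h1.trans ?_
    rw [Polynomial.eval_pow, Polynomial.eval_add, Polynomial.eval_ofNat]
    exact Nat.pow_le_pow_left (Nat.add_le_add_right (hPb n) 2) k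
  · show (D.cons _ _).enc ≠ []
    intro h
    have h1 := congrArg List.length h
    rw [D.enc_length] at h1
    exact absurd h1 (Nat.pos_iff_ne_zero.mp (D.size_pos _))
  · show LeastSpec W i (ent (wss (q2 [] _)) i)
    rw [wss_q2, ent_map_range _ _ _ hi]
    exact t1_spec W i


end Pool.Agent.CKP
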