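import Pool.Agent.Lib_helper74.KY.Defs
import Pool.Agent.Lib_helper74.KY.Blk.G2
import Pool.Agent.Lib_helper74.KY.Blk.R3
import Pool.Agent.Lib_helper74.KY.Blk.P1
import Pool.Agent.Lib_helper74.KY.Blk.C1
import Pool.Agent.Lib_helper74.KY.Blk.C2
import Pool.Agent.Lib_helper74.KY.Blk.T1
/-! Block K: the core lemmas. -/

set_option autoImplicit false
set_option linter.unusedSectionVars false

namespace Pool.Agent.CKP

open Pool.Agent.CK

variable {O : Lang}
variable {α β γ δ : Type} [ToD α] [ToD β] [ToD γ] [ToD δ]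

/-- common part of the two core lemmas -/
theorem core_of {adv : Bool} {U L : Lang} {W : ℕ → ℕ → Bool} {ℓ : ℕ → ℕ} (hver : Ver O W ℓ)
    {ans : List Unit → ℕ → Bool} (hans : PTime O (fun p : List Unit × ℕ => ans p.1 p.2))
    (hansL : ∀ (x : List Bool) (s : Bool × ℕ), LeastSpec W (num x) s →
      ans (List.replicate (num x) ()) s.2 = L x)
    {r k c : ℕ} (hr : 1 ≤ r) {Q : List Bool → List (List Bool)}
    {V : List Bool → List Bool → Bool}
    (hQ : PTime O Q) (hV : PTime O (fun p : List Bool × List Bool => V p.1 p.2))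
    (hU : ∀ z, U z = V z ((Q z).map (CL O W r k)))
    {b : ℕ → ℕ} (hb : ∀ z, ∀ q ∈ Q z, 3 * q.length + 1 < b z.length)
    {e : ℕ → ℕ} (he : UPoly O e)
    (he1 : ∀ z : List Bool, rt r (2 * (z.length + 2) ^ c) ≤ e z.length)
    {ε : ℝ} {C : ℕ} (hg : ∀ m : ℕ, (e m : ℝ) ≤ C * (m : ℝ) ^ ε + C)
    {τ : ℕ → List Bool} (hτ : ∃ P : Polynomial ℕ, ∀ n, (τ n).length ≤ P.eval n)
    (hadv : adv = false → ∀ n, τ n = []) (hadv' : adv = true → ∀ n, τ n ≠ [])
    {T : List Unit → List Bool → List Bool → List (Bool × ℕ)}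
    (hT : PTime O (fun p : List Unit × List Bool × List Bool => T p.1 p.2.1 p.2.2))
    (hT1 : ∀ (z : List Bool) (N : List Unit), 2 ^ e z.length ≤ N.length → ∀ i < b z.length,
      LeastSpec W i (ent (T N z (τ z.length)) i)) :
    ∃ (Y M : List Unit → List Bool → List Bool → Bool)
      (B : List Bool → List (List Bool) → List Bool), KeyData adv O U L c ε τ Y M B e C := by
  have hN : PTime O (fun p : List Unit × List Bool × List Bool => p.1) := PTime.id.fst
  have hz : PTime O (fun p : List Unit × List Bool × List Bool => p.2.1) := PTime.id.snd.fst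
  have hw : PTime O (fun p : List Unit × List Bool × List Bool => p.2.2) := PTime.id.snd.snd
  have hflag : PTime O (fun p : List Unit × List Bool × List Bool =>
      !(adv && p.2.2.isEmpty)) := ((PTime.const adv).and (PTime.isNil hw)).not
  have hcut : ∀ (z : List Bool) (N : List Unit), 2 ^ e z.length ≤ N.length →
      2 ^ rt r (2 * (z.length + 2) ^ c) ≤ N.length := fun z N hN =>
    (Nat.pow_le_pow_right (by norm_num) (he1 z)).trans hN
  have hmap : ∀ (z : List Bool) (N : List Unit), 2 ^ e z.length ≤ N.length →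
      ((Q z).any fun q => longK W r k c (T N z (τ z.length)) z q) = false →
      V z ((Q z).map fun q => valK O W r k N (T N z (τ z.length)) q) = U z := by
    intro z N hN hl
    rw [hU]
    congr 1
    refine List.map_congr_left fun q hq => ?_
    rw [List.any_eq_false] at hl
    have h1 := hl q hq
    have h2 : ∀ i ≤ 3 * q.length + 1, LeastSpec W i (ent (T N z (τ z.length)) i) := fun i hi =>
      hT1 z N hN i (lt_of_le_of_lt hi (hb z q hq))
    exact valK_eq hr h2 (hcut z N hN) (by simpa using h1)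
  refine ⟨fun N z w => !(adv && w.isEmpty) && yesK O W r k c V N (T N z w) z (Q z),
    fun N z w => !(adv && w.isEmpty) && noK O W r k c V N (T N z w) z (Q z),
    fun x Z => keyK W r k ans x (Z.flatMap Q), ?_⟩
  refine ⟨?_, ?_, ?_, he, hg, hτ, hadv, ?_, ?_, ?_, ?_⟩
  · exact hflag.and (PTime.yesK hver r k c hV hN hT hz (hQ.comp hz))
  · exact hflag.and (PTime.noK hver r k c hV hN hT hz (hQ.comp hz))
  · exact PTime.keyK hver r k hans PTime.id.fst
      (PTime.flatMap (f := fun (_ : List Bool × List (List Bool)) z => Q z) PTime.id.snd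
        (hQ.comp PTime.id.snd))
  · intro ha N z
    subst ha
    simp
  · intro z N hN h
    rw [Bool.and_eq_true] at h
    obtain ⟨_, h⟩ := h
    unfold yesK at h
    rw [Bool.and_eq_true, Bool.not_eq_true'] at h
    rw [← hmap z N hN h.1]
    exact h.2
  · intro z N hN h
    rw [Bool.and_eq_true] at h
    obtain ⟨_, h⟩ := h
    unfold noK at h
    rw [Bool.and_eq_true, Bool.not_eq_true', Bool.not_eq_true'] at h
    rw [← hmap z N hN h.1]
    exact h.2
  · intro x z N Z hzZ hN hx hY hM
    have hf : (!(adv && (τ z.length).isEmpty)) = true := by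
      cases hadvc : adv
      · rfl
      · have := hadv' hadvc z.length
        cases h : τ z.length
        · exact absurd h this
        · rfl
    simp only [hf, Bool.true_and] at hY hM
    unfold yesK at hY
    unfold noK at hM
    have hany : ((Q z).any fun q => longK W r k c (T N z (τ z.length)) z q) = true := by
      by_contra hcon
      rw [Bool.not_eq_true] at hcon
      rw [hcon] at hY hM
      simp only [Bool.not_false, Bool.true_and] at hY hM
      rw [hY] at hM
      simp at hM
    rw [List.any_eq_true] at hany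
    obtain ⟨q, hq, hlong⟩ := hany
    have h2 : ∀ i ≤ 3 * q.length + 1, LeastSpec W i (ent (T N z (τ z.length)) i) := fun i hi =>
      hT1 z N hN i (lt_of_le_of_lt hi (hb z q hq))
    obtain ⟨g1, g2, g3, g4⟩ := longK_spec h2 hlong
    have g5 : num x < (wss q).length := by
      have g6 := num_lt x
      unfold cutK at g3
      rw [pow_succ] at g6
      omega
    exact keyK_eq (hansL x) (List.mem_flatMap.mpr ⟨z, hzZ, hq⟩) g1 g2 g5 (g4 _ g5)

/-- the search problem whose least witnesses give `L` -/
theorem core_search {L : Lang} (hL : InENP O L) :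
    ∃ (W : ℕ → ℕ → Bool) (ℓ : ℕ → ℕ) (ans : List Unit → ℕ → Bool), Ver O W ℓ ∧
      PTime O (fun p : List Unit × ℕ => ans p.1 p.2) ∧
      ∀ (x : List Bool) (s : Bool × ℕ), LeastSpec W (num x) s →
        ans (List.replicate (num x) ()) s.2 = L x := by
  obtain ⟨B, hB, c, k, hc⟩ := hL
  obtain ⟨g, b, hg, hb, hver, hans⟩ := enp_setup hB c k
  refine ⟨_, _, fun u v => ansT O c str g b (fun m => (2 ^ ((str m).length + 1)) ^ k) u.length v,
    hver, PTime.ansT c str_ptime hg hb (E1_upoly.pow k), fun x s hs => ?_⟩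
  have h8 := hans (num x) s hs
  rw [ne_exp, str_num, (hc x).2] at h8
  simp only [List.length_replicate]
  rw [Bool.eq_iff_iff]
  exact h8

theorem poly_upoly (P : Polynomial ℕ) : UPoly O (fun m => P.eval m) := by
  unfold UPoly
  exact UPoly.poly P

/-- the polynomial `2 (m + 2) ^ c` -/
theorem cut_poly (c : ℕ) : ∀ m : ℕ,
    (2 * (Polynomial.X + 2) ^ c : Polynomial ℕ).eval m = 2 * (m + 2) ^ c := by
  intro m
  simp

/-- a polynomial bound for the queries -/
theorem exists_qbound {Q : List Bool → List (List Bool)} (hQ : PTime O Q) :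
    ∃ P : Polynomial ℕ, ∀ z, ∀ q ∈ Q z, 3 * q.length + 1 < P.eval z.length := by
  obtain ⟨P, hP⟩ := hQ.size_le
  refine ⟨3 * P.comp (4 * Polynomial.X + 1) + 2, fun z q hq => ?_⟩
  have h1 : q.length ≤ sz q := length_le_sz q
  have h2 : sz q ≤ sz (Q z) := sz_le_of_mem hq
  have h3 := hP z
  have h4 : sz z ≤ 4 * z.length + 1 := size_bits z
  have h5 := poly_mono P h4
  simp only [Polynomial.eval_comp, Polynomial.eval_add, Polynomial.eval_mul,
    Polynomial.eval_ofNat, Polynomial.eval_X, Polynomial.eval_one]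
  omega

theorem core_tt (hneg : ∀ C, TuringComplete O C → TTComplete O C) : CoreProp true O := by
  intro U L hU hL c ε hε
  obtain ⟨W, ℓ, ans, hver, hans, hansL⟩ := core_search hL
  obtain ⟨r, hr, C, hC⟩ := rt_growth (2 * (Polynomial.X + 2) ^ c) hε
  obtain ⟨k, hk⟩ := CL_complete hver
  obtain ⟨Q, V, hQ, hV, hUV⟩ := tt_data ((hneg _ (hk r hr)).2 U hU)
  obtain ⟨P, hP⟩ := exists_qbound hQ
  obtain ⟨τ, hτ, hτ0, hτ1⟩ := exists_advice hver (poly_upoly P)
  have he : UPoly O (fun m => rt r ((2 * (Polynomial.X + 2) ^ c : Polynomial ℕ).eval m)) :=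
    rt_poly r _
  obtain ⟨Y, M, B, h⟩ := core_of (adv := true) (U := U) (c := c) hver hans hansL hr hQ hV hUV
    (b := fun m => P.eval m) hP he (fun z => by rw [cut_poly]) hC hτ
    (fun h => Bool.noConfusion h) (fun _ => hτ0)
    (T := fun _ _ w => wss w) (PTime.wss PTime.id.snd.snd)
    (fun z N _ i hi => hτ1 z.length i hi)
  exact ⟨τ, Y, M, B, _, C, h⟩

end Pool.Agent.CKP
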