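import Pool.Agent.Lib_helper74.KY.Defs
import Pool.Agent.Lib_helper74.KY.Blk.R3
import Pool.Agent.Lib_helper57.YB.Btt

/-!
# Keys: the tables of least witnesses, from the solver for bounded truth-table reductions
(`Lib_helper57/YB`)
-/

set_option autoImplicit false
set_option linter.unusedSectionVars false

namespace Pool.Agent.CKP

open Pool.Agent.CK

variable {O : Lang}

theorem table_b {W : ℕ → ℕ → Bool} {ℓ : ℕ → ℕ}
    (hneg : ∀ C, TuringComplete O C → BTTComplete O C) (hver : Ver O W ℓ)
    {π : Type} [ToD π] {phi : π → List (Bool × ℕ) → List Bool → Bool}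
    (hphi : PTime O (fun p : π × List (Bool × ℕ) × List Bool => phi p.1 p.2.1 p.2.2)) {rr : ℕ}
    (hrr : 1 ≤ rr) :
    ∃ Tab : π → List Unit → List (Bool × ℕ),
      PTime O (fun p : π × List Unit => Tab p.1 p.2) ∧
      ∀ (u : π) (N : ℕ),
        (∀ (T : List (Bool × ℕ)) (y : List Bool), T.length < N →
          (∀ i < T.length, LeastSpec W i (ent T i)) → y.length ^ rr ≤ T.length →
          phi u T y = UK O y) →
        ∀ n ≤ N, ∀ i < n, LeastSpec W i (ent (Tab u (List.replicate n ())) i) :=
  table_of_data (fun C hC A hA => btt_data ((hneg C hC).2 A hA)) hver hphi hrr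

/-- Many-one reductions are bounded truth-table reductions. -/
theorem btt_of_m {A B : Lang} (h : ManyOneReducible O A B) : BTTReducible O A B := by
  obtain ⟨f, hf, h⟩ := h
  refine ⟨fun x => CK.code (f x), fun y => y.reverse.headD false, 1,
    inFP_of (PTime.code1 (ptime_of_inFP hf)),
    inP_of (PTime.headD PTime.id.reverse (PTime.const _)), fun x => ⟨[f x], by simp, by simp, ?_⟩⟩
  rw [h x]
  simp

/-- Languages that are complete for many-one reductions are complete for bounded truth-table
reductions. -/
theorem BTTComplete.of_m {C : Lang} (h : ManyOneComplete O C) : BTTComplete O C :=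
  ⟨h.1, fun A hA => btt_of_m (h.2 A hA)⟩

end Pool.Agent.CKP
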