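import Pool.Agent.Lib_helper74.KY.Defs
import Pool.Agent.Lib_helper74.KY.ClassesO
import Pool.Agent.Lib_helper74.KY.Blk.R2

/-!
# Keys: block Z1, good lengths in exponential intervals (MP_675993_lc)
-/

set_option autoImplicit false
set_option linter.unusedSectionVars false

namespace Pool.Agent.CKP

open Pool.Agent.CK

variable {O : Lang}

/-- the intervals -/
theorem z1_bound {ε : ℝ} {c : ℕ} (hc1 : 1 ≤ c) (hcε : 1 / (c : ℝ) < ε) :
    ∃ n1 : ℕ, ∀ n0 : ℕ, n1 ≤ n0 →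
      ((c * (2 ^ (n0 / c + 1) + 1) : ℕ) : ℝ) ≤ (2 : ℝ) ^ (ε * n0) := by
  have hc : (0 : ℝ) < c := by exact_mod_cast hc1
  have hd : 0 < ε - 1 / c := by linarith
  obtain ⟨n1, hn1⟩ := exists_nat_ge (Real.logb 2 (3 * c) / (ε - 1 / c))
  refine ⟨n1, fun n0 hn0 => ?_⟩
  have h1 : Real.logb 2 (3 * c) ≤ (ε - 1 / c) * n0 := by
    rw [div_le_iff₀ hd] at hn1
    have h2 : (n1 : ℝ) ≤ n0 := by exact_mod_cast hn0
    nlinarith
  have h2 : (3 * c : ℝ) ≤ (2 : ℝ) ^ ((ε - 1 / c) * n0) := by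
    have h3 := Real.rpow_le_rpow_of_exponent_le (x := 2) (by norm_num) h1
    rwa [Real.rpow_logb (by norm_num) (by norm_num) (by positivity)] at h3
  have h4 : ((2 ^ (n0 / c) : ℕ) : ℝ) ≤ (2 : ℝ) ^ ((1 / c : ℝ) * n0) := by
    push_cast
    rw [← Real.rpow_natCast (2 : ℝ) (n0 / c)]
    refine Real.rpow_le_rpow_of_exponent_le (by norm_num) ?_
    have h5 : ((n0 / c : ℕ) : ℝ) ≤ (n0 : ℝ) / c := Nat.cast_div_le
    rw [one_div, inv_mul_eq_div]
    exact h5
  have h6 : (1 : ℝ) ≤ ((2 ^ (n0 / c) : ℕ) : ℝ) := by exact_mod_cast Nat.one_le_two_pow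
  have h7 : (2 : ℝ) ^ (ε * n0) = (2 : ℝ) ^ ((ε - 1 / c) * n0) * (2 : ℝ) ^ ((1 / c : ℝ) * n0) := by
    rw [← Real.rpow_add (by norm_num)]
    congr 1
    ring
  rw [h7]
  have h8 : ((c * (2 ^ (n0 / c + 1) + 1) : ℕ) : ℝ) ≤ (3 * c) * ((2 ^ (n0 / c) : ℕ) : ℝ) := by
    push_cast at h6 ⊢
    rw [pow_succ]
    nlinarith
  calc ((c * (2 ^ (n0 / c + 1) + 1) : ℕ) : ℝ) ≤ (3 * c) * ((2 ^ (n0 / c) : ℕ) : ℝ) := h8
    _ ≤ (2 : ℝ) ^ ((ε - 1 / c) * n0) * (2 : ℝ) ^ ((1 / c : ℝ) * n0) :=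
      mul_le_mul h2 h4 (by positivity) (by positivity)

/-- Advices in all large intervals `[m0, 2 ^ m0 + 1]`. -/
theorem often_of {L : Lang} {ε : ℝ} {c : ℕ} (hc1 : 1 ≤ c) (hcε : 1 / (c : ℝ) < ε)
    {V : List Bool → List Bool → Bool} (hV : PTime O (fun p : List Bool × List Bool => V p.1 p.2))
    {M : ℕ} (h : ∀ m0 : ℕ, M ≤ m0 → ∃ w : List Bool, m0 ≤ w.length ∧ w.length ≤ 2 ^ m0 + 1 ∧
      ∀ x : List Bool, 2 ^ x.length ≤ (w.length + 1) ^ c → V x w = L x) :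
    InOftenEadvice O ε L := by
  obtain ⟨p, k, hp⟩ := run2_dec (V := V) hV
  obtain ⟨n1, hn1⟩ := z1_bound hc1 hcε
  have hc0 : (0 : ℝ) < c := by exact_mod_cast hc1
  have hec : 0 < ε * c - 1 := by
    rw [div_lt_iff₀ hc0] at hcε
    linarith
  obtain ⟨n2, hn2'⟩ := exists_nat_ge (1 / (ε * c - 1))
  refine ⟨p, 2 * k, max (max n1 n2) (c * M), fun n0 hn0 => ?_⟩
  have hn01 : n1 ≤ n0 := (le_max_left _ _).trans ((le_max_left _ _).trans hn0)
  have hn02 : n2 ≤ n0 := (le_max_right _ _).trans ((le_max_left _ _).trans hn0)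
  have hn0M : c * M ≤ n0 := (le_max_right _ _).trans hn0
  obtain ⟨m0, hm0⟩ : ∃ m0, m0 = 2 ^ (n0 / c + 1) := ⟨_, rfl⟩
  have hMd : M ≤ n0 / c := by
    rw [Nat.le_div_iff_mul_le (by omega)]
    rw [mul_comm]
    exact hn0M
  have hMm : M ≤ m0 := by
    have h1 : n0 / c + 1 < 2 ^ (n0 / c + 1) := Nat.lt_two_pow_self
    omega
  obtain ⟨w, hw1, hw2, hw⟩ := h m0 hMm
  obtain ⟨n, hn⟩ : ∃ n, n = Nat.log 2 ((w.length + 1) ^ c) := ⟨_, rfl⟩
  have hpow0 : (w.length + 1) ^ c ≠ 0 := by positivity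
  have hn1' : 2 ^ n ≤ (w.length + 1) ^ c := by
    rw [hn]
    exact Nat.pow_log_le_self 2 hpow0
  have hn2 : (w.length + 1) ^ c < 2 ^ (n + 1) := by
    rw [hn]
    exact Nat.lt_pow_succ_log_self (by norm_num) _
  have hlow : n0 ≤ n := by
    rw [hn]
    refine Nat.le_log_of_pow_le (by norm_num) ?_
    calc 2 ^ n0 ≤ 2 ^ ((n0 / c + 1) * c) := by
          refine Nat.pow_le_pow_right (by norm_num) ?_
          have h1 := Nat.lt_div_mul_add (a := n0) (b := c) (by omega)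
          have h2 : (n0 / c + 1) * c = n0 / c * c + c := by ring
          omega
      _ = m0 ^ c := by rw [pow_mul, hm0]
      _ ≤ (w.length + 1) ^ c := Nat.pow_le_pow_left (by omega) c
  have hup : n ≤ c * (2 ^ (n0 / c + 1) + 1) := by
    have h1 : 2 ^ n ≤ 2 ^ (c * (m0 + 1)) := by
      refine hn1'.trans ?_
      rw [mul_comm, pow_mul]
      refine Nat.pow_le_pow_left ?_ c
      have h2 : 2 ≤ 2 ^ m0 := by
        have h3 : 1 ≤ m0 := by
          rw [hm0]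
          exact Nat.one_le_two_pow
        calc 2 = 2 ^ 1 := (pow_one 2).symm
          _ ≤ 2 ^ m0 := Nat.pow_le_pow_right (by norm_num) h3
      rw [pow_succ]
      omega
    have h2 := (Nat.pow_le_pow_iff_right (by norm_num : 1 < 2)).1 h1
    rw [← hm0]
    exact h2
  refine ⟨n, hlow, ?_, w, ?_, fun x hx => ?_⟩
  · exact (Nat.cast_le.mpr hup).trans (hn1 n0 hn01)
  · -- the length of the advice
    by_contra hcon
    push Not at hcon
    have h2 : ((2 : ℝ) ^ (ε * n)) ^ c < 2 ^ (n + 1) := by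
      calc ((2 : ℝ) ^ (ε * n)) ^ c ≤ ((w.length : ℝ) + 1) ^ c :=
            pow_le_pow_left₀ (by positivity) (by linarith) c
        _ < 2 ^ (n + 1) := by exact_mod_cast hn2
    rw [← Real.rpow_natCast ((2 : ℝ) ^ (ε * n)) c, ← Real.rpow_mul (by norm_num),
      ← Real.rpow_natCast (2 : ℝ) (n + 1)] at h2
    have h3 := (Real.rpow_lt_rpow_left_iff (by norm_num : (1 : ℝ) < 2)).1 h2
    have h4 : 1 ≤ n2 * (ε * c - 1) := by
      rwa [div_le_iff₀ hec] at hn2'
    have h5 : (n2 : ℝ) ≤ n := by exact_mod_cast hn02.trans hlow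
    have h6 : (n2 : ℝ) * (ε * c - 1) ≤ n * (ε * c - 1) :=
      mul_le_mul_of_nonneg_right h5 hec.le
    push_cast at h3
    nlinarith
  · have hkey : V x w = L x := hw x ((Nat.pow_le_pow_right (by norm_num) hx).trans hn1')
    obtain ⟨hp1, hp2⟩ := hp x w
    have hm2 : w.length + 1 ≤ (w.length + 1) ^ c := Nat.le_self_pow (by omega) _
    have htime : (x.length + w.length + 2) ^ k ≤ 2 ^ (2 * k * (n + 1)) := by
      have h1 : x.length + w.length + 2 ≤ 2 ^ (2 * (n + 1)) := by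
        have h2 : n < 2 ^ n := Nat.lt_two_pow_self
        have h3 : 2 ^ (n + 1) = 2 * 2 ^ n := by rw [pow_succ, mul_comm]
        have h5 : 2 ≤ 2 ^ (n + 1) := by
          have h6 : 1 ≤ 2 ^ n := Nat.one_le_two_pow
          omega
        have h4 : 2 ^ (n + 1) * 2 ≤ 2 ^ (2 * (n + 1)) := by
          have h7 : 2 ^ (2 * (n + 1)) = 2 ^ (n + 1) * 2 ^ (n + 1) := by
            rw [← pow_add]
            congr 1
            ring
          rw [h7]
          exact Nat.mul_le_mul le_rfl h5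
        omega
      calc (x.length + w.length + 2) ^ k ≤ (2 ^ (2 * (n + 1))) ^ k := Nat.pow_le_pow_left h1 k
        _ = 2 ^ (2 * k * (n + 1)) := by
            rw [← pow_mul]
            congr 1
            ring
    have hrun := run_stable hp1 htime
    constructor
    · unfold Halts at hp1 ⊢
      rw [hrun]
      exact hp1
    · have h1 : Accepts O p x w (2 ^ (2 * k * (n + 1))) ↔
          Accepts O p x w ((x.length + w.length + 2) ^ k) := by
        unfold Accepts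
        rw [hrun]
      rw [h1, hp2, hkey]

end Pool.Agent.CKP
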