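import Pool.Agent.Lib_helper74.KY.Blk.X1
import Pool.Agent.Lib_helper74.KY.Blk.X2
import Pool.Agent.Lib_helper74.KY.Blk.YB
import Pool.Agent.Lib_helper74.KY.Blk.Z1
import Pool.Agent.Lib_helper74.KY.Blk.K

/-!
# Keys: block Z2, the theorem for bounded truth-table reductions (MP_675993_lc)

For a number `m0`: either some instance `z` of the universal `NP` language with
`m0 ≤ |z| ≤ 2 ^ m0` is a key (it has a query with a correct list of more than `(|z| + 2) ^ c` least
witnesses), and then `z` is a short advice; or all instances of length less than `2 ^ m0` can be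
decided with the tables of least witnesses by recursion down to the length `m0`, and the tables can
be computed one after the other in time polynomial in `2 ^ m0`, without any advice.
-/

set_option autoImplicit false
set_option linter.unusedSectionVars false

namespace Pool.Agent.CKP

open Pool.Agent.CK

variable {O : Lang}
variable {α β γ δ : Type} [ToD α] [ToD β] [ToD γ] [ToD δ]

/-- the threshold given by an advice: the number of its `1`s -/
def thrW (w : List Bool) : ℕ := (w.filter fun b => b).length

/-- the advice for the threshold `m` -/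
def advW (m : ℕ) : List Bool := List.replicate m true ++ List.replicate (2 ^ m - m) false

theorem thrW_advW (m : ℕ) : thrW (advW m) = m := by
  unfold thrW advW
  rw [List.filter_append, List.filter_replicate_of_pos rfl, List.filter_replicate_of_neg (by simp)]
  simp

theorem length_advW (m : ℕ) : (advW m).length = 2 ^ m := by
  unfold advW
  rw [List.length_append, List.length_replicate, List.length_replicate]
  have : m < 2 ^ m := Nat.lt_two_pow_self
  omega

/-- the decision procedure for short instances, given the table for small numbers -/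
def phiW (O : Lang) (j0 : ℕ) (dec : List Bool → List (Bool × ℕ) → List Bool → Bool)
    (w : List Bool) (T : List (Bool × ℕ)) (y : List Bool) : Bool :=
  if decide (T.length < j0) = true then (brute O y (List.replicate (2 ^ (j0 + 1)) ())).2
  else dec w T y

/-- small numbers -/
theorem z2_pow {m d t j0 e : ℕ} (hj : j0 = 3 ^ d) (h1 : m ^ (2 * d + 1 + e) ≤ t) (h2 : j0 ≤ t) :
    (m + 2) ^ d ≤ t := by
  rcases Nat.lt_or_ge m 2 with h | h
  · subst hj
    exact (Nat.pow_le_pow_left (by omega) d).trans h2
  · refine le_trans ?_ h1
    calc (m + 2) ^ d ≤ (m ^ 2) ^ d := Nat.pow_le_pow_left (by nlinarith) d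
      _ = m ^ (2 * d) := by rw [← pow_mul]
      _ ≤ m ^ (2 * d + 1 + e) := Nat.pow_le_pow_right (by omega) (by omega)

/-- the instances that are met are shorter than `2 ^ m0` -/
theorem z2_len {a b c f t : ℕ} (hb : 1 ≤ b) (h1 : a ^ (f + (2 * c + 2)) ≤ t)
    (h2 : t < 2 * (b + 2) ^ c + 2) : a ≤ b := by
  by_contra hab
  rw [not_le] at hab
  have h3 : (b + 1) ^ (2 * c + 2) ≤ a ^ (f + (2 * c + 2)) :=
    calc (b + 1) ^ (2 * c + 2) ≤ a ^ (2 * c + 2) := Nat.pow_le_pow_left hab _
      _ ≤ a ^ (f + (2 * c + 2)) := Nat.pow_le_pow_right (by omega) (by omega)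
  have h4 : (b + 2) ^ c ≤ (b + 1) ^ (2 * c) := by
    rw [pow_mul]
    exact Nat.pow_le_pow_left (by nlinarith) c
  have h5 : 4 ≤ (b + 1) ^ 2 := by nlinarith
  have h6 : 4 * (b + 2) ^ c ≤ (b + 1) ^ (2 * c + 2) := by
    rw [pow_add, mul_comm]
    exact Nat.mul_le_mul h4 h5
  have h7 : 1 ≤ (b + 2) ^ c := Nat.one_le_pow _ _ (by omega)
  omega

/-- the value of `L x` from the table of the least witnesses -/
def ansW (c : ℕ) (ans : List Unit → ℕ → Bool)
    (Tab : List Bool → List Unit → List (Bool × ℕ)) (x w : List Bool) : Bool :=
  ans (toNum (List.replicate (2 * (w.length + 2) ^ c) ()) x)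
    (ent (Tab w (() :: toNum (List.replicate (2 * (w.length + 2) ^ c) ()) x))
      (toNum (List.replicate (2 * (w.length + 2) ^ c) ()) x).length).2

theorem often_b (hneg : ∀ C, TuringComplete O C → BTTComplete O C) (ε : ℝ) (L : Lang)
    (hε : 0 < ε) (hL : InENP O L) : InOftenEadvice O ε L := by
  obtain ⟨c, hc1, hcε⟩ := exists_r hε
  obtain ⟨W, ℓ, ans, hver, hans, hansL⟩ := core_search hL
  obtain ⟨k, hk⟩ := CL_complete hver
  obtain ⟨Q, V, hQ, hV, hUV⟩ := tt_data (tt_of_btt
    ((hneg _ (hk (3 * (c + 1)) (by omega))).2 (UK O) UK_inNP))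
  obtain ⟨P, hP⟩ := exists_qbound hQ
  obtain ⟨d, hd⟩ := exists_pow P
  obtain ⟨j0, hj0⟩ : ∃ j0 : ℕ, j0 = 3 ^ d := ⟨_, rfl⟩
  obtain ⟨dec, hdec⟩ : ∃ dec : List Bool → List (Bool × ℕ) → List Bool → Bool,
      dec = fun w T y => decR O W (3 * (c + 1)) k Q V (thrW w) (ulen w) T y := ⟨_, rfl⟩
  have hdecP : PTime O (fun p : List Bool × List (Bool × ℕ) × List Bool =>
      dec p.1 p.2.1 p.2.2) := by
    rw [hdec]
    refine PTime.decR hver (3 * (c + 1)) k hQ hV ?_ PTime.id.fst.ulen PTime.id.snd.fst
      PTime.id.snd.snd
    exact PTime.length (PTime.filter (f := fun _ b => b) PTime.id.fst PTime.id.snd)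
  have hphi : PTime O (fun p : List Bool × List (Bool × ℕ) × List Bool =>
      phiW O j0 dec p.1 p.2.1 p.2.2) := by
    unfold phiW
    exact PTime.ite (PTime.nat_lt PTime.id.snd.fst.length (PTime.const j0))
      (PTime.brute PTime.id.snd.snd (PTime.const (List.replicate (2 ^ (j0 + 1)) ()))).snd hdecP
  obtain ⟨Tab, hTab, hTab'⟩ := table_b hneg hver (phi := phiW O j0 dec)
    hphi (rr := 2 * d + 1 + (2 * c + 2)) (by omega)
  -- the program
  have hbig : PTime O (fun p : List Bool × List Bool =>
      toNum (List.replicate (2 * (p.2.length + 2) ^ c) ()) p.1) := by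
    refine PTime.toNum ?_ PTime.id.fst
    exact ((UPoly.const 2).mul (UPoly.tb c)).comp PTime.id.snd
  have hansW : PTime O (fun p : List Bool × List Bool => ansW c ans Tab p.1 p.2) := by
    unfold ansW
    refine hans.comp (hbig.pair ?_)
    refine (PTime.ent ?_ hbig).snd
    exact hTab.comp (PTime.id.snd.pair (PTime.cons (PTime.const ()) hbig))
  have hkeyP : PTime O (fun p : List Bool × List Bool =>
      (keyK W (3 * (c + 1)) k ans p.1 (Q p.2)).headD false) :=
    PTime.headD (PTime.keyK hver (3 * (c + 1)) k hans PTime.id.fst (hQ.comp PTime.id.snd))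
      (PTime.const false)
  have hVP : PTime O (fun p : List Bool × List Bool => if p.2.headD false = true then
      ansW c ans Tab p.1 p.2.tail
      else (keyK W (3 * (c + 1)) k ans p.1 (Q p.2.tail)).headD false) := by
    have ht : PTime O (fun p : List Bool × List Bool => (p.1, p.2.tail)) :=
      PTime.id.fst.pair PTime.id.snd.tail
    exact PTime.ite (PTime.headD PTime.id.snd (PTime.const false))
      (PTime.comp (g := fun p : List Bool × List Bool => ansW c ans Tab p.1 p.2) hansW ht)
      (PTime.comp (g := fun p : List Bool × List Bool =>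
        (keyK W (3 * (c + 1)) k ans p.1 (Q p.2)).headD false) hkeyP ht)
  refine often_of hc1 hcε (V := fun x w => if w.headD false = true then
      ansW c ans Tab x w.tail else (keyK W (3 * (c + 1)) k ans x (Q w.tail)).headD false)
    hVP (M := 14) fun m0 hm0 => ?_
  by_cases hkey : ∃ z : List Bool, m0 ≤ z.length ∧ z.length ≤ 2 ^ m0 ∧
      ∀ x : List Bool, 2 ^ x.length ≤ (z.length + 2) ^ c →
        keyK W (3 * (c + 1)) k ans x (Q z) = [L x]
  · -- the key is the advice
    obtain ⟨z, hz1, hz2, hz⟩ := hkey
    refine ⟨false :: z, by simp; omega, by simpa using hz2, fun x hx => ?_⟩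
    have h1 := hz x (by simpa using hx)
    simp [h1]
  · -- no advice is needed
    push Not at hkey
    have hshort : ∀ z : List Bool, m0 ≤ z.length → z.length ≤ 2 ^ m0 → ∀ q ∈ Q z,
        typ q = true → valid W (3 * (c + 1)) k q = true →
        (∀ i < (wss q).length, LeastSpec W i (ent (wss q) i)) →
        (wss q).length < 2 * (z.length + 2) ^ c := by
      intro z hz1 hz2 q hq h1 h2 h3
      obtain ⟨x, hx1, hx2⟩ := hkey z hz1 hz2
      by_contra hcon
      rw [not_lt] at hcon
      refine hx2 ?_
      have hlt : num x < (wss q).length := by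
        have g6 := num_lt x
        rw [pow_succ] at g6
        omega
      exact keyK_eq (hansL x) hq h1 h2 hlt (h3 _ hlt)
    have hlen := length_advW m0
    refine ⟨true :: advW m0, ?_, ?_, fun x hx => ?_⟩
    · rw [List.length_cons, hlen]
      have : m0 < 2 ^ m0 := Nat.lt_two_pow_self
      omega
    · rw [List.length_cons, hlen]
    · rw [List.length_cons, hlen] at hx
      show (if (true :: advW m0).headD false = true then ansW c ans Tab x (true :: advW m0).tail
        else _) = L x
      rw [List.headD_cons, if_pos rfl, List.tail_cons]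
      have hN : num x < 2 * (2 ^ m0 + 2) ^ c := by
        have g6 := num_lt x
        rw [pow_succ] at g6
        have h1 : 2 ^ x.length ≤ (2 ^ m0 + 2) ^ c := hx
        omega
      have hnum : toNum (List.replicate (2 * ((advW m0).length + 2) ^ c) ()) x =
          List.replicate (num x) () := by
        refine toNum_eq _ _ ?_
        rw [List.length_replicate, hlen]
        exact hN.le
      unfold ansW
      rw [hnum, List.length_replicate]
      refine hansL x _ ?_
      have hcons : (() :: List.replicate (num x) ()) = List.replicate (num x + 1) () := rfl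
      rw [hcons]
      refine hTab' (advW m0) (2 * (2 ^ m0 + 2) ^ c + 2) ?_ (num x + 1) (by omega) (num x)
        (by omega)
      -- correctness of the decision procedure
      intro T y hTN hT hy
      unfold phiW
      by_cases h0 : T.length < j0
      · rw [if_pos (by simpa using h0), Bool.eq_iff_iff]
        refine brute_eq ?_
        rw [List.length_replicate]
        refine Nat.pow_le_pow_right (by norm_num) ?_
        have h1 : y.length ≤ y.length ^ (2 * d + 1 + (2 * c + 2)) := Nat.le_self_pow (by omega) _
        omega
      · rw [if_neg (by simpa using h0), hdec]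
        show decR O W (3 * (c + 1)) k Q V (thrW (advW m0)) (ulen (advW m0)) T y = UK O y
        rw [thrW_advW]
        have hyl : y.length ≤ 2 ^ m0 := z2_len (f := 2 * d + 1) (c := c) Nat.one_le_two_pow hy hTN
        refine decR_eq hUV hm0 ?_ (fun z hz1 hz2 => hshort z hz1 (hz2.trans hyl)) ?_
        · rw [ulen_eq, List.length_replicate, hlen]
        · intro z hz q hq i hi
          refine hT i ?_
          have g1 := hP z q hq
          have g2 := poly_mono P hz
          have g3 := hd y.length
          have g4 := z2_pow (m := y.length) (d := d) (e := 2 * c + 2) hj0 hy (not_lt.mp h0)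
          omega

/-- The version for many-one reductions. -/
theorem often_m (hneg : ∀ C, TuringComplete O C → ManyOneComplete O C) (ε : ℝ) (L : Lang)
    (hε : 0 < ε) (hL : InENP O L) : InOftenEadvice O ε L :=
  often_b (fun C hC => BTTComplete.of_m (hneg C hC)) ε L hε hL

end Pool.Agent.CKP
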