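import Pool.Agent.Lib_helper74.KY.DefsR
import Pool.Agent.Lib_helper74.KY.Blk.P1
import Pool.Agent.Lib_helper74.KY.Blk.C1
set_option autoImplicit false
set_option linter.unusedSectionVars false

namespace Pool.Agent.CKP

open Pool.Agent.CK

variable {O : Lang}
variable {α β γ δ : Type} [ToD α] [ToD β] [ToD γ] [ToD δ]

section X1

variable {W : ℕ → ℕ → Bool} {ℓ : ℕ → ℕ}

theorem x1_okR (hver : Ver O W ℓ) (r k : ℕ) {T : γ → List (Bool × ℕ)} {y q : γ → List Bool}
    (hT : PTime O T) (hy : PTime O y) (hq : PTime O q) :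
    PTime O (fun a => okR W r k (T a) (y a) (q a)) := by
  unfold okR
  refine PTime.and (PTime.typ hq) (PTime.and (PTime.valid hver r k hq)
    (PTime.and (PTime.badK hT hq.wss).not (PTime.nat_le ?_ ?_)))
  · exact PTime.npow hq.xx (fun n => (n + 2) ^ 2) (UPoly.tb 2)
  · exact PTime.npow hy (fun n => n + 2) (UPoly.id.add (UPoly.const 2))

theorem x1_subR (hver : Ver O W ℓ) (r k : ℕ) {Q : List Bool → List (List Bool)}
    (hQ : PTime O Q) {n0 : γ → ℕ} (hn0 : PTime O n0) {T : γ → List (Bool × ℕ)}
    {y : γ → List Bool} (hT : PTime O T) (hy : PTime O y) :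
    PTime O (fun a => subR W r k Q (n0 a) (T a) (y a)) := by
  unfold subR
  refine PTime.ite (c := fun a => decide ((y a).length < n0 a)) ?_ (PTime.const _) ?_
  · exact PTime.nat_lt hy.length hn0
  · refine PTime.map (f := fun _ q => CKP.xx q) ?_ (PTime.xx PTime.id.snd)
    refine PTime.filter (f := fun a q => okR W r k (T a) (y a) q) (hQ.comp hy) ?_
    exact x1_okR hver r k (hT.comp PTime.id.fst) (hy.comp PTime.id.fst) PTime.id.snd

/-! sizes -/

theorem x1_iter_append {τ : Type} (s : τ → List τ) (i : ℕ) : ∀ L : List τ,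
    (fun M : List τ => M.flatMap s)^[i] L =
      L.flatMap fun z => (fun M : List τ => M.flatMap s)^[i] [z] := by
  induction i with
  | zero =>
    intro L
    simp
  | succ i ih =>
    intro L
    rw [Function.iterate_succ_apply, ih]
    simp only [Function.iterate_succ_apply]
    rw [List.flatMap_assoc]
    congr 1
    funext z
    rw [ih ([z].flatMap s)]
    simp

theorem x1_flat_le {τ : Type} (L : List τ) (g : τ → List τ) (B : ℕ)
    (h : ∀ z ∈ L, (g z).length ≤ B) : (L.flatMap g).length ≤ L.length * B := by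
  induction L with
  | nil => simp
  | cons a t ih =>
    rw [List.flatMap_cons, List.length_append, List.length_cons]
    have h1 := h a List.mem_cons_self
    have h2 := ih (fun z hz => h z (List.mem_cons_of_mem _ hz))
    calc (g a).length + (t.flatMap g).length ≤ B + t.length * B := by omega
      _ = (t.length + 1) * B := by ring

theorem x1_sub_len {r k n0 a : ℕ} {Q : List Bool → List (List Bool)}
    (ha : ∀ z : List Bool, (Q z).length ≤ (z.length + 2) ^ a) (T : List (Bool × ℕ))
    (z : List Bool) : (subR W r k Q n0 T z).length ≤ (z.length + 2) ^ a := by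
  unfold subR
  split
  · simp
  · rw [List.length_map]
    exact (List.length_filter_le _ _).trans (ha z)

theorem x1_sub_mem {r k n0 : ℕ} {Q : List Bool → List (List Bool)} {T : List (Bool × ℕ)}
    {z z' : List Bool} (h : z' ∈ subR W r k Q n0 T z) : (z'.length + 2) ^ 2 ≤ z.length + 2 := by
  unfold subR at h
  split at h
  · simp at h
  · obtain ⟨q, hq, rfl⟩ := List.mem_map.mp h
    have h1 := (List.mem_filter.mp hq).2
    unfold okR at h1
    simp only [Bool.and_eq_true, decide_eq_true_eq] at h1
    exact h1.2.2.2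

theorem x1_sub_mem' {r k n0 : ℕ} {Q : List Bool → List (List Bool)} {T : List (Bool × ℕ)}
    {z z' : List Bool} (h : z' ∈ subR W r k Q n0 T z) : z'.length ≤ z.length := by
  have h1 := x1_sub_mem h
  nlinarith

theorem x1_gen_len {r k n0 a : ℕ} {Q : List Bool → List (List Bool)}
    (ha : ∀ z : List Bool, (Q z).length ≤ (z.length + 2) ^ a) (T : List (Bool × ℕ)) (i : ℕ) :
    ∀ z : List Bool, ((fun M : List (List Bool) => M.flatMap (subR W r k Q n0 T))^[i] [z]).length ≤
      (z.length + 2) ^ (2 * a) := by
  induction i with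
  | zero =>
    intro z
    simpa using Nat.one_le_pow _ _ (by omega)
  | succ i ih =>
    intro z
    rw [Function.iterate_succ_apply, x1_iter_append]
    have h0 : [z].flatMap (subR W r k Q n0 T) = subR W r k Q n0 T z := by simp
    rw [h0]
    have h1 := x1_sub_len (W := W) (r := r) (k := k) (n0 := n0) ha T z
    have h2 := x1_flat_le (subR W r k Q n0 T z)
      (fun z => (fun M : List (List Bool) => M.flatMap (subR W r k Q n0 T))^[i] [z])
      ((z.length + 2) ^ a) (fun z' hz' => by
        refine (ih z').trans ?_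
        rw [pow_mul]
        exact Nat.pow_le_pow_left (x1_sub_mem hz') a)
    calc _ ≤ _ := h2
      _ ≤ (z.length + 2) ^ a * (z.length + 2) ^ a := Nat.mul_le_mul_right _ h1
      _ = (z.length + 2) ^ (2 * a) := by rw [two_mul, pow_add]

theorem x1_gen_mem {r k n0 : ℕ} {Q : List Bool → List (List Bool)} (T : List (Bool × ℕ)) (n : ℕ)
    (i : ℕ) : ∀ L : List (List Bool), (∀ z ∈ L, z.length ≤ n) →
      ∀ z ∈ (fun M : List (List Bool) => M.flatMap (subR W r k Q n0 T))^[i] L, z.length ≤ n := by
  induction i with
  | zero =>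
    intro L hL z hz
    exact hL z hz
  | succ i ih =>
    intro L hL z hz
    rw [Function.iterate_succ_apply] at hz
    refine ih _ ?_ z hz
    intro z' hz'
    obtain ⟨w, hw, hw'⟩ := List.mem_flatMap.mp hz'
    exact (x1_sub_mem' hw').trans (hL w hw)

/-- the states of `closR` -/
theorem x1_clos_state {r k n0 a : ℕ} {Q : List Bool → List (List Bool)}
    (ha : ∀ z : List Bool, (Q z).length ≤ (z.length + 2) ^ a) (T : List (Bool × ℕ))
    (y : List Bool) : ∀ l : List Unit,
    let s := l.foldl (fun (s : List (List Bool) × List (List Bool)) _ =>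
      (s.1 ++ s.2.flatMap (subR W r k Q n0 T), s.2.flatMap (subR W r k Q n0 T))) ([y], [y])
    s.2 = (fun M : List (List Bool) => M.flatMap (subR W r k Q n0 T))^[l.length] [y] ∧
      s.1.length ≤ (l.length + 1) * (y.length + 2) ^ (2 * a) ∧ ∀ z ∈ s.1, z.length ≤ y.length := by
  intro l
  induction l using List.reverseRecOn with
  | nil =>
    refine ⟨rfl, ?_, ?_⟩
    · simpa using Nat.one_le_pow _ _ (by omega)
    · intro z hz
      have : z = y := by simpa using hz
      rw [this]
  | append_singleton l x ih =>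
    obtain ⟨h1, h2, h3⟩ := ih
    rw [List.foldl_append, List.foldl_cons, List.foldl_nil, List.length_append]
    simp only [List.length_cons, List.length_nil, zero_add]
    have h4 : ∀ z ∈ (fun M : List (List Bool) => M.flatMap (subR W r k Q n0 T))^[l.length + 1] [y],
        z.length ≤ y.length := x1_gen_mem T y.length (l.length + 1) [y] (by
          intro z hz
          have : z = y := by simpa using hz
          rw [this])
    have h5 := x1_gen_len (W := W) (r := r) (k := k) (n0 := n0) ha T (l.length + 1) y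
    have h6 : (l.foldl (fun (s : List (List Bool) × List (List Bool)) _ =>
      (s.1 ++ s.2.flatMap (subR W r k Q n0 T), s.2.flatMap (subR W r k Q n0 T)))
        ([y], [y])).2.flatMap (subR W r k Q n0 T) =
        (fun M : List (List Bool) => M.flatMap (subR W r k Q n0 T))^[l.length + 1] [y] := by
      rw [Function.iterate_succ_apply', ← h1]
    refine ⟨h6, ?_, ?_⟩
    · rw [h6, List.length_append]
      calc _ ≤ (l.length + 1) * (y.length + 2) ^ (2 * a) + (y.length + 2) ^ (2 * a) := by omega
        _ = (l.length + 1 + 1) * (y.length + 2) ^ (2 * a) := by ring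
    · intro z hz
      rw [h6] at hz
      rcases List.mem_append.mp hz with hz | hz
      · exact h3 z hz
      · exact h4 z hz

theorem x1_sz_strs {n m : ℕ} {L : List (List Bool)} (h1 : L.length ≤ m)
    (h2 : ∀ z ∈ L, z.length ≤ n) : sz L ≤ m * (4 * n + 2) + 1 := by
  have h3 := num_list_bound L (4 * n + 1) (fun z hz => by
    have h4 := (num_list_sz z).2
    have h5 := h2 z hz
    omega)
  have h6 : L.length * (4 * n + 1 + 1) ≤ m * (4 * n + 1 + 1) := Nat.mul_le_mul_right _ h1
  have h7 : 4 * n + 1 + 1 = 4 * n + 2 := rfl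
  rw [h7] at h3 h6
  omega

theorem x1_closR (hver : Ver O W ℓ) (r k : ℕ) {Q : List Bool → List (List Bool)}
    (hQ : PTime O Q) {n0 : γ → ℕ} (hn0 : PTime O n0) {T : γ → List (Bool × ℕ)}
    {y : γ → List Bool} (hT : PTime O T) (hy : PTime O y) :
    PTime O (fun a => closR W r k Q (n0 a) (T a) (y a) (() :: ulen (y a))) := by
  obtain ⟨P, hP⟩ := hQ.size_le
  obtain ⟨a, ha⟩ := exists_pow (P.comp (4 * Polynomial.X + 1))
  have ha' : ∀ z : List Bool, (Q z).length ≤ (z.length + 2) ^ a := by
    intro z
    have h1 := (length_le_sz (Q z)).trans (hP z)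
    have h2 : P.eval (sz z) ≤ P.eval (4 * z.length + 1) := poly_mono P (num_list_sz z).2
    have h3 := ha z.length
    have h4 : (P.comp (4 * Polynomial.X + 1)).eval z.length = P.eval (4 * z.length + 1) := by
      simp [Polynomial.eval_comp]
    rw [h4] at h3
    omega
  obtain ⟨Py, hPy⟩ := hy.size_le
  unfold closR
  refine PTime.foldl (l := fun a => () :: ulen (y a)) (i := fun a => ([y a], [y a]))
    (s := fun a (s : List (List Bool) × List (List Bool)) _ =>
      (s.1 ++ s.2.flatMap (subR W r k Q (n0 a) (T a)), s.2.flatMap (subR W r k Q (n0 a) (T a))))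
    (PTime.cons (PTime.const ()) hy.ulen)
    ((hy.cons (PTime.const [])).pair (hy.cons (PTime.const []))) ?_
    (((Polynomial.X + 3) * (Polynomial.X + 2) ^ (2 * a) * (4 * Polynomial.X + 2) + 3).comp Py) ?_
  · have h1 : PTime O (fun p : γ × (List (List Bool) × List (List Bool)) × Unit =>
        p.2.1.2.flatMap (subR W r k Q (n0 p.1) (T p.1))) := by
      refine PTime.flatMap
        (f := fun (p : γ × (List (List Bool) × List (List Bool)) × Unit) z =>
          subR W r k Q (n0 p.1) (T p.1) z) PTime.id.snd.fst.snd ?_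
      exact x1_subR hver r k hQ (hn0.comp PTime.id.fst.fst) (hT.comp PTime.id.fst.fst)
        PTime.id.snd
    exact (PTime.append PTime.id.snd.fst.fst h1).pair h1
  · intro x l' hl'
    obtain ⟨h1, h2, h3⟩ := x1_clos_state (W := W) (r := r) (k := k) (n0 := n0 x) ha' (T x) (y x) l'
    have h4 : l'.length ≤ (y x).length + 1 := by
      have := hl'.length_le
      simpa using this
    set s := l'.foldl (fun (s : List (List Bool) × List (List Bool)) _ =>
      (s.1 ++ s.2.flatMap (subR W r k Q (n0 x) (T x)), s.2.flatMap (subR W r k Q (n0 x) (T x))))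
        ([y x], [y x]) with hs
    set n := (y x).length with hn
    have h5 : s.1.length ≤ (n + 2) * (n + 2) ^ (2 * a) :=
      h2.trans (Nat.mul_le_mul_right _ (by omega))
    have h6 := x1_sz_strs h5 h3
    have h7 : s.2.length ≤ (n + 2) ^ (2 * a) := by
      rw [h1]
      exact x1_gen_len ha' (T x) l'.length (y x)
    have h8 : ∀ z ∈ s.2, z.length ≤ n := by
      rw [h1]
      exact x1_gen_mem (T x) n l'.length [y x] (by
        intro z hz
        have : z = y x := by simpa using hz
        rw [this])
    have h9 := x1_sz_strs h7 h8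
    have h10 : sz s ≤ (n + 3) * (n + 2) ^ (2 * a) * (4 * n + 2) + 3 := by
      have : sz s = sz s.1 + sz s.2 + 1 := rfl
      rw [this]
      calc sz s.1 + sz s.2 + 1 ≤ ((n + 2) * (n + 2) ^ (2 * a) * (4 * n + 2) + 1) +
            ((n + 2) ^ (2 * a) * (4 * n + 2) + 1) + 1 := by omega
        _ = (n + 3) * (n + 2) ^ (2 * a) * (4 * n + 2) + 3 := by ring
    have h11 : n ≤ Py.eval (sz x) := (length_le_sz (y x)).trans (hPy x)
    have h12 : ((Polynomial.X + 3) * (Polynomial.X + 2) ^ (2 * a) * (4 * Polynomial.X + 2) + 3 :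
        Polynomial ℕ).eval n = (n + 3) * (n + 2) ^ (2 * a) * (4 * n + 2) + 3 := by simp
    rw [Polynomial.eval_comp]
    refine (h10.trans h12.ge).trans ?_
    exact poly_mono _ h11

/-! the passes -/

theorem x1_num {x : γ → List Bool} (hx : PTime O x) : PTime O (fun a => num (x a)) := by
  unfold num
  exact PTime.ofBits (PTime.append hx (PTime.const [true]))

theorem x1_lkR {A : γ → List (List Bool × Bool)} {y : γ → List Bool} (hA : PTime O A)
    (hy : PTime O y) : PTime O (fun a => lkR (A a) (y a)) := by
  unfold lkR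
  refine PTime.any (f := fun a (p : List Bool × Bool) => decide (num p.1 = num (y a)) && p.2)
    hA ?_
  exact (PTime.nat_eq (x1_num PTime.id.snd.fst) (x1_num (hy.comp PTime.id.fst))).and
    PTime.id.snd.snd

theorem x1_valR (hver : Ver O W ℓ) (r k : ℕ) {Q : List Bool → List (List Bool)}
    {V : List Bool → List Bool → Bool} (hQ : PTime O Q)
    (hV : PTime O (fun p : List Bool × List Bool => V p.1 p.2)) {n0 : γ → ℕ} {U : γ → List Unit}
    (hn0 : PTime O n0) (hU : PTime O U) {T : γ → List (Bool × ℕ)}
    {A : γ → List (List Bool × Bool)} {y : γ → List Bool} (hT : PTime O T) (hA : PTime O A)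
    (hy : PTime O y) :
    PTime O (fun a => valR O W r k Q V (n0 a) (U a) (T a) (lkR (A a)) (y a)) := by
  unfold valR
  refine PTime.ite (c := fun a => decide ((y a).length < n0 a)) ?_ ?_ ?_
  · exact PTime.nat_lt hy.length hn0
  · exact (PTime.brute hy hU).snd
  · refine hV.comp (hy.pair ?_)
    refine PTime.map (f := fun a q => if okR W r k (T a) (y a) q = true then
      lkR (A a) (xx q) else CKP.valK O W r k [] (T a) q) (hQ.comp hy) ?_
    exact PTime.ite (x1_okR hver r k (hT.comp PTime.id.fst) (hy.comp PTime.id.fst) PTime.id.snd)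
      (x1_lkR (hA.comp PTime.id.fst) (PTime.xx PTime.id.snd))
      (PTime.valK hver r k (PTime.const []) (hT.comp PTime.id.fst) PTime.id.snd)

theorem x1_passR (hver : Ver O W ℓ) (r k : ℕ) {Q : List Bool → List (List Bool)}
    {V : List Bool → List Bool → Bool} (hQ : PTime O Q)
    (hV : PTime O (fun p : List Bool × List Bool => V p.1 p.2)) {n0 : γ → ℕ} {U : γ → List Unit}
    (hn0 : PTime O n0) (hU : PTime O U) {T : γ → List (Bool × ℕ)}
    {A : γ → List (List Bool × Bool)} (hT : PTime O T) (hA : PTime O A) :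
    PTime O (fun a => passR O W r k Q V (n0 a) (U a) (T a) (A a)) := by
  unfold passR
  refine PTime.map (f := fun a (p : List Bool × Bool) =>
    (p.1, valR O W r k Q V (n0 a) (U a) (T a) (lkR (A a)) p.1)) hA ?_
  exact PTime.id.snd.fst.pair (x1_valR hver r k hQ hV (hn0.comp PTime.id.fst)
    (hU.comp PTime.id.fst) (hT.comp PTime.id.fst) (hA.comp PTime.id.fst) PTime.id.snd.fst)

theorem x1_sz_pass : ∀ A A' : List (List Bool × Bool), A.map Prod.fst = A'.map Prod.fst →
    sz A ≤ 3 * sz A' := by
  intro A
  induction A with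
  | nil =>
    intro A' h
    have := sz_pos A'
    rw [sz_nil]
    omega
  | cons a A ih =>
    intro A' h
    cases A' with
    | nil => simp at h
    | cons b B =>
      simp only [List.map_cons, List.cons.injEq] at h
      have h1 := ih B h.2
      have h2 := num_bool_sz a.2
      have h3 := num_bool_sz b.2
      have h4 : sz a = sz a.1 + sz a.2 + 1 := rfl
      have h5 : sz b = sz b.1 + sz b.2 + 1 := rfl
      rw [sz_cons, sz_cons, h4, h5, h.1]
      omega

theorem x1_pass_state {r k n0 : ℕ} {U : List Unit} {Q : List Bool → List (List Bool)}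
    {V : List Bool → List Bool → Bool} (T : List (Bool × ℕ)) : ∀ (l : List Unit)
    (A : List (List Bool × Bool)),
    (l.foldl (fun A _ => passR O W r k Q V n0 U T A) A).map Prod.fst = A.map Prod.fst := by
  intro l
  induction l with
  | nil => intro A; rfl
  | cons x l ih =>
    intro A
    rw [List.foldl_cons, ih]
    unfold passR
    rw [List.map_map]
    rfl

end X1

theorem PTime.decR {W : ℕ → ℕ → Bool} {ℓ : ℕ → ℕ} (hver : Ver O W ℓ) (r k : ℕ)
    {Q : List Bool → List (List Bool)} {V : List Bool → List Bool → Bool} (hQ : PTime O Q)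
    (hV : PTime O (fun p : List Bool × List Bool => V p.1 p.2)) {n0 : γ → ℕ} {U : γ → List Unit}
    (hn0 : PTime O n0) (hU : PTime O U) {T : γ → List (Bool × ℕ)}
    {y : γ → List Bool} (hT : PTime O T) (hy : PTime O y) :
    PTime O (fun a => CKP.decR O W r k Q V (n0 a) (U a) (T a) (y a)) := by
  unfold CKP.decR
  refine x1_lkR ?_ hy
  have hA : PTime O (fun a => (closR W r k Q (n0 a) (T a) (y a) (() :: CKP.ulen (y a))).1.map
      fun s => (s, false)) :=
    PTime.map (f := fun _ s => (s, false)) (x1_closR hver r k hQ hn0 hT hy).fst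
      (PTime.id.snd.pair (PTime.const false))
  obtain ⟨PA, hPA⟩ := hA.size_le
  refine PTime.foldl (l := fun a => () :: CKP.ulen (y a))
    (i := fun a => (closR W r k Q (n0 a) (T a) (y a) (() :: CKP.ulen (y a))).1.map
      fun s => (s, false))
    (s := fun a A _ => passR O W r k Q V (n0 a) (U a) (T a) A)
    (PTime.cons (PTime.const ()) hy.ulen) hA
    (x1_passR hver r k hQ hV (hn0.comp PTime.id.fst) (hU.comp PTime.id.fst)
      (hT.comp PTime.id.fst) PTime.id.snd.fst) (3 * PA) ?_
  intro x l' _
  have h1 := x1_sz_pass _ _ (x1_pass_state (O := O) (W := W) (r := r) (k := k) (n0 := n0 x)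
    (U := U x) (Q := Q) (V := V) (T x) l'
    ((closR W r k Q (n0 x) (T x) (y x) (() :: CKP.ulen (y x))).1.map fun s => (s, false)))
  have h2 := hPA x
  have h3 : (3 * PA : Polynomial ℕ).eval (sz x) = 3 * PA.eval (sz x) := by simp
  rw [h3]
  omega

end Pool.Agent.CKP
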